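import Pool.Agent.helper163_WO.Defs

set_option autoImplicit false

namespace Pool.Agent.helper163_WO

open Finset

/- TARGET. Plain proof (deletion method, by averaging over functions).
Fix `k ≥ 3`, `N`. For `m` large put `P = m / k^2` (natural division; `P ≥ 1`). Let `D = powersetCard k univ`
(`Finset (Finset (Fin m))`), `|D| = C(m,k)`. For a colouring `g : Finset (Fin m) → Fin P` (or `D → Fin P`) put
`E_g = {e ∈ D | g e = 0}`. The average over all `g` of `|E_g|` is `|D| / P`. Call a set `R ⊆ D` bad if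
`1 ≤ |R| = |⋃ R|... `: precisely, for `1 ≤ s ≤ N` a pair `(S, R)` with `S ⊆ Fin m`, `|S| = s`, `R ⊆ powersetCard k S`,
`|R| = s`. The number of such pairs is at most `m^s * 2^(2^N)` (`C(m,s) ≤ m^s` choices of `S`, at most `2^(2^s)` of `R`),
and the fraction of the `g` with `R ⊆ E_g` is `P^{-s}`. As `P ≥ m / (2 k^2)` for `m ≥ 2k^2`, the average over `g` of
the number `b(g)` of pairs `(S,R)` with `R ⊆ E_g` is at most `C₀ = N * (2 k^2)^N * 2^(2^N)` (independent of `m`). So some `g` has
`|E_g| - b(g) ≥ C(m,k)/P - C₀ ≥ k^2 C(m,k)/m - C₀`. Delete from `E_g` one edge of every bad `R ⊆ E_g`: the result `E`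
is `Sparse N` (if `S` nonempty, `|S| = s ≤ N`, had `≥ s` edges of `E` inside, take `R` = `s` of them, a bad pair with `R ⊆ E`,
but one edge of `R` was deleted) and `|E| ≥ k^2 C(m,k)/m - C₀`. Finally `C(m,k) ≥ (m^k/k!) (1 - C(k,2)/m)` (or `C(m,k) ≥ (m-k+1)^k/k!`,
Mathlib `Nat.pow_sub_le_descFactorial`), so `k^2 C(m,k)/m ~ k m^{k-1}/(k-1)!`, while the target is `(k-2)/(2 (k-1)!) m^{k-1}`, less than half of it;
`m^{k-1} → ∞` beats `C₀`. -/
theorem exists_sparse_count {α : Type} [Fintype α] [DecidableEq α] (P : ℕ) (hP : 0 < P) (R : Finset α) :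
    (((univ : Finset (α → Fin P)).filter (fun g => ∀ e ∈ R, ((g e : Fin P) : ℕ) = 0)).card : ℝ)
      = (P : ℝ) ^ Fintype.card α / (P : ℝ) ^ R.card := by
  classical
  have h : (univ : Finset (α → Fin P)).filter (fun g => ∀ e ∈ R, ((g e : Fin P) : ℕ) = 0)
      = Fintype.piFinset (fun e => if e ∈ R then ({⟨0, hP⟩} : Finset (Fin P)) else univ) := by
    ext g
    simp only [mem_filter, mem_univ, true_and, Fintype.mem_piFinset]
    constructor
    · intro hg e
      by_cases he : e ∈ R
      · rw [if_pos he, mem_singleton]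
        exact Fin.ext (hg e he)
      · rw [if_neg he]; exact mem_univ _
    · intro hg e he
      have := hg e
      rw [if_pos he, mem_singleton] at this
      rw [this]
  rw [h, Fintype.card_piFinset]
  have h2 : ∀ e : α, (if e ∈ R then ({⟨0, hP⟩} : Finset (Fin P)) else univ).card
      = if e ∈ R then 1 else P := by
    intro e
    by_cases he : e ∈ R
    · rw [if_pos he, if_pos he, card_singleton]
    · rw [if_neg he, if_neg he, card_univ, Fintype.card_fin]
  rw [prod_congr rfl (fun e _ => h2 e)]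
  have hP' : (P : ℝ) ≠ 0 := by exact_mod_cast hP.ne'
  rw [eq_div_iff (pow_ne_zero _ hP')]
  have h3 : (∏ e : α, (if e ∈ R then 1 else P)) * P ^ R.card = P ^ Fintype.card α := by
    have h4 : P ^ R.card = ∏ e : α, (if e ∈ R then P else 1) := by
      rw [prod_ite_mem, univ_inter, prod_const]
    rw [h4, ← prod_mul_distrib, ← card_univ, ← prod_const]
    refine prod_congr rfl fun e _ => ?_
    by_cases he : e ∈ R <;> simp [he]
  exact_mod_cast h3

/-- the number of bad configurations -/
def exists_sparse_B (k N m P : ℕ) (g : Finset (Fin m) → Fin P) : Finset (Finset (Finset (Fin m))) :=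
  (Icc 1 N).biUnion (fun s => (powersetCard s (univ : Finset (Fin m))).biUnion (fun S =>
    (powersetCard s (powersetCard k S)).filter (fun R => ∀ e ∈ R, ((g e : Fin P) : ℕ) = 0)))

theorem exists_sparse_B_card (k N m P : ℕ) (g : Finset (Fin m) → Fin P) :
    ((exists_sparse_B k N m P g).card : ℝ) ≤ ∑ s ∈ Icc 1 N, ∑ S ∈ powersetCard s (univ : Finset (Fin m)),
      ∑ R ∈ powersetCard s (powersetCard k S), (if ∀ e ∈ R, ((g e : Fin P) : ℕ) = 0 then (1 : ℝ) else 0) := by
  unfold exists_sparse_B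
  refine (Nat.cast_le.mpr card_biUnion_le).trans ?_
  rw [Nat.cast_sum]
  refine sum_le_sum fun s _ => ?_
  refine (Nat.cast_le.mpr card_biUnion_le).trans ?_
  rw [Nat.cast_sum]
  refine sum_le_sum fun S _ => ?_
  rw [sum_boole]

theorem exists_sparse_delete (k N m P : ℕ) (g : Finset (Fin m) → Fin P) :
    ∃ E : Finset (Finset (Fin m)), (∀ e ∈ E, e.card = k) ∧ Sparse N E ∧
      ((((powersetCard k (univ : Finset (Fin m))).filter (fun e => ((g e : Fin P) : ℕ) = 0)).card : ℝ)
        - ((exists_sparse_B k N m P g).card : ℝ) ≤ (E.card : ℝ)) := by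
  classical
  set Eg := (powersetCard k (univ : Finset (Fin m))).filter (fun e => ((g e : Fin P) : ℕ) = 0) with hEg
  let pick : Finset (Finset (Fin m)) → Finset (Fin m) := fun R => if h : R.Nonempty then h.choose else ∅
  have hpick : ∀ R : Finset (Finset (Fin m)), R.Nonempty → pick R ∈ R := by
    intro R hR
    simp only [pick, dif_pos hR]
    exact hR.choose_spec
  refine ⟨Eg \ (exists_sparse_B k N m P g).image pick, ?_, ?_, ?_⟩
  · intro e he
    have := (mem_sdiff.1 he).1
    rw [hEg, mem_filter, mem_powersetCard] at this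
    exact this.1.2
  · intro S hS hSN
    by_contra hcon
    push Not at hcon
    obtain ⟨R, hR1, hR2⟩ := exists_subset_card_eq hcon
    have hRne : R.Nonempty := by
      rw [← card_pos, hR2]; exact card_pos.2 hS
    have hRB : R ∈ exists_sparse_B k N m P g := by
      unfold exists_sparse_B
      rw [mem_biUnion]
      refine ⟨S.card, ?_, ?_⟩
      · rw [mem_Icc]; exact ⟨card_pos.2 hS, hSN⟩
      · rw [mem_biUnion]
        refine ⟨S, by rw [mem_powersetCard]; exact ⟨subset_univ _, rfl⟩, ?_⟩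
        rw [mem_filter, mem_powersetCard]
        refine ⟨⟨?_, hR2⟩, ?_⟩
        · intro e he
          have h1 := hR1 he
          rw [mem_filter, mem_sdiff, hEg, mem_filter, mem_powersetCard] at h1
          rw [mem_powersetCard]
          exact ⟨h1.2, h1.1.1.1.2⟩
        · intro e he
          have h1 := hR1 he
          rw [mem_filter, mem_sdiff, hEg, mem_filter, mem_powersetCard] at h1
          exact h1.1.1.2
    have h1 := hR1 (hpick R hRne)
    rw [mem_filter, mem_sdiff] at h1
    exact h1.1.2 (mem_image_of_mem pick hRB)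
  · have h1 : Eg.card ≤ (Eg \ (exists_sparse_B k N m P g).image pick).card
        + ((exists_sparse_B k N m P g).image pick).card := by
      have := card_le_card_sdiff_add_card (s := Eg) (t := (exists_sparse_B k N m P g).image pick)
      exact this
    have h2 : ((exists_sparse_B k N m P g).image pick).card ≤ (exists_sparse_B k N m P g).card :=
      card_image_le
    have h3 : Eg.card ≤ (Eg \ (exists_sparse_B k N m P g).image pick).card
        + (exists_sparse_B k N m P g).card := h1.trans (Nat.add_le_add_left h2 _)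
    have h4 : (Eg.card : ℝ) ≤ ((Eg \ (exists_sparse_B k N m P g).image pick).card : ℝ)
        + ((exists_sparse_B k N m P g).card : ℝ) := by exact_mod_cast h3
    linarith

theorem exists_sparse_avg (k N P : ℕ) (hk : 1 ≤ k) (hP : 0 < P) :
    ∃ g : Finset (Fin (k ^ 2 * P)) → Fin P,
      ((k ^ 2 * P).choose k : ℝ) / P - (N : ℝ) * ((k : ℝ) ^ 2) ^ N * 2 ^ (2 ^ N) ≤
      (((powersetCard k (univ : Finset (Fin (k ^ 2 * P)))).filter (fun e => ((g e : Fin P) : ℕ) = 0)).card : ℝ)
        - ((exists_sparse_B k N (k ^ 2 * P) P g).card : ℝ) := by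
  classical
  set m := k ^ 2 * P with hm
  have hP' : (0 : ℝ) < (P : ℝ) := by exact_mod_cast hP
  have hk' : (1 : ℝ) ≤ (k : ℝ) := by exact_mod_cast hk
  set C0 : ℝ := (N : ℝ) * ((k : ℝ) ^ 2) ^ N * 2 ^ (2 ^ N) with hC0
  set T : ℝ := (P : ℝ) ^ Fintype.card (Finset (Fin m)) with hT
  have hTpos : 0 < T := by positivity
  have : Nonempty (Fin P) := ⟨⟨0, hP⟩⟩
  -- sum of the sizes
  have hsum1 : ∑ g : Finset (Fin m) → Fin P,
      (((powersetCard k (univ : Finset (Fin m))).filter (fun e => ((g e : Fin P) : ℕ) = 0)).card : ℝ)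
      = (m.choose k : ℝ) * (T / P) := by
    have h1 : ∀ g : Finset (Fin m) → Fin P,
        (((powersetCard k (univ : Finset (Fin m))).filter (fun e => ((g e : Fin P) : ℕ) = 0)).card : ℝ)
        = ∑ e ∈ powersetCard k (univ : Finset (Fin m)), (if ((g e : Fin P) : ℕ) = 0 then (1 : ℝ) else 0) := by
      intro g; rw [sum_boole]
    rw [sum_congr rfl (fun g _ => h1 g), sum_comm]
    have h2 : ∀ e ∈ powersetCard k (univ : Finset (Fin m)),
        ∑ g : Finset (Fin m) → Fin P, (if ((g e : Fin P) : ℕ) = 0 then (1 : ℝ) else 0) = T / P := by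
      intro e _
      rw [sum_boole]
      have := exists_sparse_count P hP ({e} : Finset (Finset (Fin m)))
      simp only [mem_singleton, forall_eq, card_singleton, pow_one] at this
      exact this
    rw [sum_congr rfl h2, sum_const, card_powersetCard, card_univ, Fintype.card_fin, nsmul_eq_mul]
  have hsum2 : ∑ g : Finset (Fin m) → Fin P, ((exists_sparse_B k N m P g).card : ℝ) ≤ C0 * T := by
    refine (sum_le_sum fun g _ => exists_sparse_B_card k N m P g).trans ?_
    rw [sum_comm]
    have h3 : ∀ s ∈ Icc 1 N, ∑ g : Finset (Fin m) → Fin P, ∑ S ∈ powersetCard s (univ : Finset (Fin m)),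
        ∑ R ∈ powersetCard s (powersetCard k S), (if ∀ e ∈ R, ((g e : Fin P) : ℕ) = 0 then (1 : ℝ) else 0)
        ≤ ((k : ℝ) ^ 2) ^ N * 2 ^ (2 ^ N) * T := by
      intro s hs
      rw [mem_Icc] at hs
      rw [sum_comm]
      have h4 : ∀ S ∈ powersetCard s (univ : Finset (Fin m)), ∑ g : Finset (Fin m) → Fin P,
          ∑ R ∈ powersetCard s (powersetCard k S), (if ∀ e ∈ R, ((g e : Fin P) : ℕ) = 0 then (1 : ℝ) else 0)
          ≤ 2 ^ (2 ^ N) * (T / P ^ s) := by
        intro S hS
        rw [mem_powersetCard] at hS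
        rw [sum_comm]
        have h5 : ∀ R ∈ powersetCard s (powersetCard k S),
            ∑ g : Finset (Fin m) → Fin P, (if ∀ e ∈ R, ((g e : Fin P) : ℕ) = 0 then (1 : ℝ) else 0)
            = T / P ^ s := by
          intro R hR
          rw [mem_powersetCard] at hR
          rw [sum_boole]
          have := exists_sparse_count P hP R
          rw [hR.2] at this
          exact this
        rw [sum_congr rfl h5, sum_const, nsmul_eq_mul]
        have h6 : (powersetCard s (powersetCard k S)).card ≤ 2 ^ (2 ^ N) := by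
          have e1 : (powersetCard s (powersetCard k S)).card ≤ (powersetCard k S).powerset.card :=
            card_le_card (fun R hR => by
              rw [mem_powersetCard] at hR
              rw [mem_powerset]; exact hR.1)
          rw [card_powerset] at e1
          have e2 : (powersetCard k S).card ≤ S.powerset.card :=
            card_le_card (fun R hR => by
              rw [mem_powersetCard] at hR
              rw [mem_powerset]; exact hR.1)
          rw [card_powerset, hS.2] at e2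
          calc (powersetCard s (powersetCard k S)).card ≤ 2 ^ (powersetCard k S).card := e1
            _ ≤ 2 ^ (2 ^ s) := Nat.pow_le_pow_right (by norm_num) e2
            _ ≤ 2 ^ (2 ^ N) := Nat.pow_le_pow_right (by norm_num) (Nat.pow_le_pow_right (by norm_num) hs.2)
        have h7 : ((powersetCard s (powersetCard k S)).card : ℝ) ≤ 2 ^ (2 ^ N) := by exact_mod_cast h6
        exact mul_le_mul_of_nonneg_right h7 (by positivity)
      refine (sum_le_sum h4).trans ?_
      rw [sum_const, card_powersetCard, card_univ, Fintype.card_fin, nsmul_eq_mul]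
      have h8 : (m.choose s : ℝ) ≤ (m : ℝ) ^ s := by exact_mod_cast Nat.choose_le_pow m s
      have h9 : (m : ℝ) ^ s * (2 ^ (2 ^ N) * (T / P ^ s)) = ((k : ℝ) ^ 2) ^ s * 2 ^ (2 ^ N) * T := by
        have : (m : ℝ) = (k : ℝ) ^ 2 * P := by rw [hm]; push_cast; ring
        rw [this, mul_pow]
        field_simp
      have h10 : ((k : ℝ) ^ 2) ^ s ≤ ((k : ℝ) ^ 2) ^ N :=
        pow_le_pow_right₀ (by nlinarith) hs.2
      calc (m.choose s : ℝ) * (2 ^ (2 ^ N) * (T / P ^ s)) ≤ (m : ℝ) ^ s * (2 ^ (2 ^ N) * (T / P ^ s)) :=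
            mul_le_mul_of_nonneg_right h8 (by positivity)
        _ = ((k : ℝ) ^ 2) ^ s * 2 ^ (2 ^ N) * T := h9
        _ ≤ ((k : ℝ) ^ 2) ^ N * 2 ^ (2 ^ N) * T := by gcongr
    refine (sum_le_sum h3).trans ?_
    rw [sum_const, Nat.card_Icc, nsmul_eq_mul, hC0]
    have : ((N + 1 - 1 : ℕ) : ℝ) = (N : ℝ) := by rw [Nat.add_sub_cancel]
    rw [this]
    exact le_of_eq (by ring)
  have hcard : ((univ : Finset (Finset (Fin m) → Fin P)).card : ℝ) = T := by
    rw [card_univ, Fintype.card_fun, Fintype.card_fin, hT]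
    push_cast
    rfl
  have hne : (univ : Finset (Finset (Fin m) → Fin P)).Nonempty := univ_nonempty
  obtain ⟨g, -, hg⟩ := exists_le_of_sum_le (s := (univ : Finset (Finset (Fin m) → Fin P)))
    (f := fun _ => (m.choose k : ℝ) / P - C0)
    (g := fun g => (((powersetCard k (univ : Finset (Fin m))).filter
      (fun e => ((g e : Fin P) : ℕ) = 0)).card : ℝ) - ((exists_sparse_B k N m P g).card : ℝ)) hne (by
      rw [sum_const, nsmul_eq_mul, hcard, sum_sub_distrib, hsum1]
      have e1 : T * ((m.choose k : ℝ) / P - C0) = (m.choose k : ℝ) * (T / P) - C0 * T := by ring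
      rw [e1]
      linarith)
  exact ⟨g, hg⟩

theorem exists_sparse {k : ℕ} (hk : 3 ≤ k) (N : ℕ) : ∃ (m : ℕ) (E : Finset (Finset (Fin m))),
    k ≤ m ∧ (∀ e ∈ E, e.card = k) ∧ Sparse N E ∧
    ((k : ℝ) - 2) / (2 * ((k - 1).factorial : ℝ)) * (m : ℝ) ^ (k - 1) < (E.card : ℝ) := by
  obtain ⟨P, hP⟩ := exists_nat_gt (max 4 ((N : ℝ) * ((k : ℝ) ^ 2) ^ N * 2 ^ (2 ^ N) * ((k - 1).factorial : ℝ)))
  have hP4 : (4 : ℝ) < P := lt_of_le_of_lt (le_max_left _ _) hP
  have hPC : (N : ℝ) * ((k : ℝ) ^ 2) ^ N * 2 ^ (2 ^ N) * ((k - 1).factorial : ℝ) < P :=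
    lt_of_le_of_lt (le_max_right _ _) hP
  have hP0 : 0 < P := by
    have : (0 : ℝ) < P := by linarith
    exact_mod_cast this
  have hP4' : 4 < P := by exact_mod_cast hP4
  obtain ⟨g, hg⟩ := exists_sparse_avg k N P (by omega) hP0
  obtain ⟨E, hE1, hE2, hE3⟩ := exists_sparse_delete k N (k ^ 2 * P) P g
  have hkm : k ≤ k ^ 2 * P := by nlinarith [Nat.mul_le_mul (le_refl (k ^ 2)) hP0]
  refine ⟨k ^ 2 * P, E, hkm, hE1, hE2, lt_of_lt_of_le ?_ (hg.trans hE3)⟩
  set m := k ^ 2 * P with hm
  set C0 : ℝ := (N : ℝ) * ((k : ℝ) ^ 2) ^ N * 2 ^ (2 ^ N) with hC0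
  set F : ℝ := ((k - 1).factorial : ℝ) with hF
  have hFpos : 0 < F := by rw [hF]; exact_mod_cast Nat.factorial_pos _
  have hk' : (3 : ℝ) ≤ k := by exact_mod_cast hk
  have hmR : (m : ℝ) = (k : ℝ) ^ 2 * P := by rw [hm]; push_cast; ring
  have hPpos : (0 : ℝ) < P := by linarith
  have hmpos : (0 : ℝ) < m := by rw [hmR]; positivity
  -- lower bound for the binomial coefficient
  have h1 : ((m : ℝ) - k) ^ k ≤ (m.choose k : ℝ) * (k.factorial : ℝ) := by
    have e1 : (m + 1 - k) ^ k ≤ m.descFactorial k := Nat.pow_sub_le_descFactorial m k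
    have e2 : m.descFactorial k = k.factorial * m.choose k := Nat.descFactorial_eq_factorial_mul_choose m k
    have e3 : (m - k) ^ k ≤ k.factorial * m.choose k := by
      rw [← e2]; exact (Nat.pow_le_pow_left (by omega) k).trans e1
    have e4 : (((m - k : ℕ) : ℝ)) ^ k ≤ (k.factorial : ℝ) * (m.choose k : ℝ) := by exact_mod_cast e3
    rw [Nat.cast_sub hkm] at e4
    linarith [mul_comm (k.factorial : ℝ) (m.choose k : ℝ)]
  have h2 : (3 / 4 : ℝ) * (m : ℝ) ^ k ≤ ((m : ℝ) - k) ^ k := by
    have e1 : (m : ℝ) - k = m * (1 + (-(k : ℝ) / m)) := by field_simp; ring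
    have e2 : -2 ≤ -(k : ℝ) / m := by
      rw [le_div_iff₀ hmpos]
      have : (k : ℝ) ≤ m := by exact_mod_cast hkm
      linarith
    have e3 := one_add_mul_le_pow e2 k
    rw [e1, mul_pow]
    have e4 : (k : ℝ) * (-(k : ℝ) / m) ≥ -(1 / 4) := by
      rw [hmR]
      have : (k : ℝ) * (-(k : ℝ) / ((k : ℝ) ^ 2 * P)) = - (1 / P) := by
        field_simp
      rw [this]
      have : 1 / (P : ℝ) ≤ 1 / 4 := one_div_le_one_div_of_le (by norm_num) hP4.le
      linarith
    have e5 : (3 / 4 : ℝ) ≤ (1 + (-(k : ℝ) / m)) ^ k := by linarith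
    calc (3 / 4 : ℝ) * (m : ℝ) ^ k = (m : ℝ) ^ k * (3 / 4) := by ring
      _ ≤ (m : ℝ) ^ k * (1 + (-(k : ℝ) / m)) ^ k := by gcongr
  have hfac : (k.factorial : ℝ) = k * F := by
    rw [hF]
    obtain ⟨j, rfl⟩ : ∃ j, k = j + 1 := ⟨k - 1, by omega⟩
    rw [Nat.factorial_succ, Nat.add_sub_cancel]
    push_cast; ring
  have hmk : (m : ℝ) ^ k = (m : ℝ) ^ (k - 1) * m := by
    rw [← pow_succ]; congr 1; omega
  set M : ℝ := (m : ℝ) ^ (k - 1) with hM
  have hMpos : 0 < M := by positivity
  have h3 : (3 / 4 : ℝ) * k * M / F ≤ (m.choose k : ℝ) / P := by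
    rw [div_le_div_iff₀ hFpos hPpos]
    have e1 : (3 / 4 : ℝ) * (M * m) ≤ (m.choose k : ℝ) * (k * F) := by
      rw [← hmk, ← hfac]; exact h2.trans h1
    rw [hmR] at e1
    have hk0 : (0 : ℝ) < k := by linarith
    have e2 : k * ((3 / 4 : ℝ) * k * M * P) ≤ k * ((m.choose k : ℝ) * F) := by
      calc k * ((3 / 4 : ℝ) * k * M * P) = (3 / 4 : ℝ) * (M * ((k : ℝ) ^ 2 * P)) := by ring
        _ ≤ (m.choose k : ℝ) * (k * F) := e1
        _ = k * ((m.choose k : ℝ) * F) := by ring
    exact le_of_mul_le_mul_left e2 hk0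
  have h4 : C0 < M / F := by
    rw [lt_div_iff₀ hFpos]
    refine lt_of_lt_of_le hPC ?_
    have e1 : (1 : ℝ) ≤ m := by exact_mod_cast (by omega : 1 ≤ m)
    have e2 : (m : ℝ) ^ 1 ≤ (m : ℝ) ^ (k - 1) := pow_le_pow_right₀ e1 (by omega)
    rw [pow_one] at e2
    refine le_trans ?_ e2
    rw [hmR]
    have e3 : (1 : ℝ) ≤ (k : ℝ) ^ 2 := by nlinarith
    exact le_mul_of_one_le_left hPpos.le e3
  have h5 : ((k : ℝ) - 2) / (2 * F) * M + M / F ≤ (3 / 4 : ℝ) * k * M / F := by
    have : (3 / 4 : ℝ) * k * M / F - (((k : ℝ) - 2) / (2 * F) * M + M / F) = (k / 4) * M / F := by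
      field_simp
      ring
    have : 0 ≤ (k / 4) * M / F := by positivity
    linarith
  linarith

end Pool.Agent.helper163_WO
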