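import Pool.Agent.helper163_WO.Defs

set_option autoImplicit false

namespace Pool.Agent.helper163_WO

open Finset

lemma limit_exists_map {n : ℕ} (H : Finset (Finset (Fin (n + 1)))) (i : Fin (n + 1)) :
    (univ.filter (fun e : Finset (Fin n) => e.map i.succAboveEmb ∈ H)).card =
      (H.filter (fun e => i ∉ e)).card := by
  classical
  have hinj : Function.Injective (fun e : Finset (Fin n) => e.map i.succAboveEmb) :=
    Finset.map_injective _
  have h : (H.filter (fun e => i ∉ e)) =
      (univ.filter (fun e : Finset (Fin n) => e.map i.succAboveEmb ∈ H)).map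
        ⟨fun e : Finset (Fin n) => e.map i.succAboveEmb, hinj⟩ := by
    ext e
    simp only [Finset.mem_filter, Finset.mem_map, Finset.mem_univ, true_and,
      Function.Embedding.coeFn_mk]
    constructor
    · rintro ⟨he, hi⟩
      have key : (univ.filter (fun a : Fin n => i.succAbove a ∈ e)).map i.succAboveEmb = e := by
        ext b
        simp only [Finset.mem_map, Finset.mem_filter, Finset.mem_univ, true_and,
          Fin.coe_succAboveEmb]
        constructor
        · rintro ⟨a, ha, rfl⟩
          exact ha
        · intro hb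
          have hbi : b ≠ i := by
            rintro rfl
            exact hi hb
          obtain ⟨a, rfl⟩ := Fin.exists_succAbove_eq hbi
          exact ⟨a, hb, rfl⟩
      exact ⟨univ.filter (fun a : Fin n => i.succAbove a ∈ e), by rw [key]; exact he, key⟩
    · rintro ⟨e', he', rfl⟩
      refine ⟨he', ?_⟩
      simp only [Finset.mem_map, Fin.coe_succAboveEmb, not_exists, not_and]
      intro a _
      exact Fin.succAbove_ne i a
  rw [h, Finset.card_map]

lemma limit_exists_bdd (k m : ℕ) (L : Finset (Finset (Fin m))) (n : ℕ) :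
    BddAbove {t : ℕ | ∃ H : Finset (Finset (Fin n)), (∀ A ∈ H, A.card = k) ∧ H.card = t ∧
    ¬ ∃ f : Fin m ↪ Fin n, ∀ e ∈ L, e.map f ∈ H} := by
  refine ⟨Fintype.card (Finset (Fin n)), ?_⟩
  rintro t ⟨H, _, rfl, _⟩
  exact Finset.card_le_univ H

lemma limit_exists_step (k m : ℕ) (L : Finset (Finset (Fin m))) (n : ℕ) :
    (n + 1 - k) * exN k m L (n + 1) ≤ (n + 1) * exN k m L n := by
  classical
  rcases Set.eq_empty_or_nonempty {t : ℕ | ∃ H : Finset (Finset (Fin (n + 1))),
    (∀ A ∈ H, A.card = k) ∧ H.card = t ∧
    ¬ ∃ f : Fin m ↪ Fin (n + 1), ∀ e ∈ L, e.map f ∈ H} with h | h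
  · have : exN k m L (n + 1) = 0 := by
      unfold exN
      rw [h, csSup_empty]
      rfl
    rw [this, mul_zero]
    exact Nat.zero_le _
  · obtain ⟨H, hH, hcard, hfree⟩ := Nat.sSup_mem h (limit_exists_bdd k m L (n + 1))
    have hx : exN k m L (n + 1) = H.card := hcard.symm
    have hi : ∀ i : Fin (n + 1),
        (univ.filter (fun e : Finset (Fin n) => e.map i.succAboveEmb ∈ H)).card
          ≤ exN k m L n := by
      intro i
      apply le_csSup (limit_exists_bdd k m L n)
      refine ⟨univ.filter (fun e : Finset (Fin n) => e.map i.succAboveEmb ∈ H), ?_, rfl, ?_⟩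
      · intro A hA
        rw [Finset.mem_filter] at hA
        have := hH _ hA.2
        rwa [Finset.card_map] at this
      · rintro ⟨f, hf⟩
        apply hfree
        refine ⟨f.trans i.succAboveEmb, ?_⟩
        intro e he
        have := hf e he
        rw [Finset.mem_filter, Finset.map_map] at this
        exact this.2
    have hsum : ∑ i : Fin (n + 1), (H.filter (fun e => i ∉ e)).card = H.card * (n + 1 - k) := by
      simp only [Finset.card_filter]
      rw [Finset.sum_comm]
      have : ∀ e ∈ H, ∑ i : Fin (n + 1), (if i ∉ e then 1 else 0) = n + 1 - k := by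
        intro e he
        rw [← Finset.card_filter]
        have e1 : univ.filter (fun i : Fin (n + 1) => i ∉ e) = eᶜ := by
          ext i
          simp
        rw [e1, Finset.card_compl, Fintype.card_fin, hH e he]
      rw [Finset.sum_congr rfl this, Finset.sum_const, smul_eq_mul]
    have hle : ∑ i : Fin (n + 1), (H.filter (fun e => i ∉ e)).card
        ≤ ∑ _i : Fin (n + 1), exN k m L n := by
      apply Finset.sum_le_sum
      intro i _
      rw [← limit_exists_map H i]
      exact hi i
    rw [hsum, Finset.sum_const, Finset.card_univ, Fintype.card_fin, smul_eq_mul] at hle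
    rw [hx, mul_comm]
    exact hle

/- TARGET. Plain proof. Let `x n = exN k m L n`. CLAIM `(n + 1 - k) * x (n+1) ≤ (n+1) * x n` for `n ≥ k`. If the set defining
`x (n+1)` is empty then `x (n+1) = sSup ∅ = 0`. Otherwise it is attained (`Nat.sSup_mem`, bounded) by some `H`. For `i : Fin (n+1)` let
`H i = {e : Finset (Fin n) | e.map (Fin.succAboveEmb i).toEmbedding ∈ H}`; it is `k`-uniform and contains no copy of `L`, so
`(H i).card ≤ x n`; and `∑ i, (H i).card = ∑ e ∈ H, #{i | i ∉ e} = H.card * (n+1-k)`. With
`Nat.choose_mul_succ_eq : n.choose k * (n+1) = (n+1).choose k * (n+1-k)` the ratio `x n / C(n,k)` is antitone for `n ≥ k`, and it is `≥ 0`,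
so it converges (`tendsto_atTop_ciInf` for the shifted sequence, `Filter.tendsto_add_atTop_iff_nat`). -/
theorem limit_exists (k m : ℕ) (L : Finset (Finset (Fin m))) : ∃ d : ℝ,
    Filter.Tendsto (fun n : ℕ => (exN k m L n : ℝ) / ((n.choose k : ℕ) : ℝ))
      Filter.atTop (nhds d) := by
  have hanti : Antitone (fun j : ℕ => (exN k m L (j + k) : ℝ) / (((j + k).choose k : ℕ) : ℝ)) := by
    apply antitone_nat_of_succ_le
    intro j
    have h1 := limit_exists_step k m L (j + k)
    have e1 : j + k + 1 - k = j + 1 := by omega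
    rw [e1] at h1
    have h2 := Nat.choose_mul_succ_eq (j + k) k
    rw [e1] at h2
    have e2 : j + 1 + k = j + k + 1 := by omega
    rw [e2]
    have p1 : (0 : ℝ) < ((j + k).choose k : ℕ) := by
      exact_mod_cast Nat.choose_pos (by omega)
    have p2 : (0 : ℝ) < ((j + k + 1).choose k : ℕ) := by
      exact_mod_cast Nat.choose_pos (by omega)
    rw [div_le_div_iff₀ p2 p1]
    have h3 : exN k m L (j + k + 1) * (j + k).choose k ≤
        exN k m L (j + k) * (j + k + 1).choose k := by
      have h4 : (j + 1) * (exN k m L (j + k + 1) * (j + k).choose k) ≤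
          (j + 1) * (exN k m L (j + k) * (j + k + 1).choose k) := by
        calc (j + 1) * (exN k m L (j + k + 1) * (j + k).choose k)
            = ((j + 1) * exN k m L (j + k + 1)) * (j + k).choose k := by ring
          _ ≤ ((j + k + 1) * exN k m L (j + k)) * (j + k).choose k :=
              Nat.mul_le_mul_right _ h1
          _ = exN k m L (j + k) * ((j + k).choose k * (j + k + 1)) := by ring
          _ = exN k m L (j + k) * ((j + k + 1).choose k * (j + 1)) := by rw [h2]
          _ = (j + 1) * (exN k m L (j + k) * (j + k + 1).choose k) := by ring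
      exact Nat.le_of_mul_le_mul_left h4 (Nat.succ_pos j)
    exact_mod_cast h3
  have hbdd : BddBelow (Set.range
      (fun j : ℕ => (exN k m L (j + k) : ℝ) / (((j + k).choose k : ℕ) : ℝ))) := by
    refine ⟨0, ?_⟩
    rintro _ ⟨j, rfl⟩
    simp only
    positivity
  exact ⟨_, (Filter.tendsto_add_atTop_iff_nat
      (f := fun n : ℕ => (exN k m L n : ℝ) / ((n.choose k : ℕ) : ℝ)) k).1
      (tendsto_atTop_ciInf hanti hbdd)⟩

end Pool.Agent.helper163_WO
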