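import Pool.Agent.helper163_WO.Defs

set_option autoImplicit false

namespace Pool.Agent.helper163_WO

open Finset

/-- the colouring with given fibres -/
lemma lower_of_pattern_col {U : Type} [Fintype U] [DecidableEq U] (ν : U → ℕ) (n : ℕ)
    (h : ∑ u, ν u = n) : ∃ c : Fin n → U, ∀ u, (univ.filter (fun x => c x = u)).card = ν u := by
  have hc : Fintype.card (Σ u, Fin (ν u)) = Fintype.card (Fin n) := by
    rw [Fintype.card_sigma, Fintype.card_fin]
    simpa using h
  let e : (Σ u, Fin (ν u)) ≃ Fin n := Fintype.equivOfCardEq hc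
  refine ⟨fun x => (e.symm x).1, fun u => ?_⟩
  have h1 : (univ.filter (fun x => (e.symm x).1 = u)) =
      (univ : Finset (Fin (ν u))).image (fun i => e ⟨u, i⟩) := by
    ext x
    simp only [mem_filter, mem_univ, true_and, mem_image]
    constructor
    · intro hx
      subst hx
      exact ⟨(e.symm x).2, by simp⟩
    · rintro ⟨i, hi⟩
      rw [← hi]; simp
  rw [h1, Finset.card_image_of_injective, Finset.card_univ, Fintype.card_fin]
  intro i i' hii
  have h2 := e.injective hii
  simpa using h2

/-- the lower bound for the number of the edges of the blow-up -/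
lemma lower_of_pattern_card {k n : ℕ} {U : Type} [Fintype U] [DecidableEq U]
    (T : Finset (Finset U)) (hT : ∀ e ∈ T, e.card = k) (ν : U → ℕ) (c : Fin n → U)
    (hc : ∀ u, (univ.filter (fun x => c x = u)).card = ν u) :
    ∑ t ∈ T, ∏ u ∈ t, ν u ≤
      (univ.filter (fun e : Finset (Fin n) => e.card = k ∧ e.image c ∈ T)).card := by
  classical
  let S : Finset (Σ t : Finset U, (∀ u ∈ t, Fin n)) :=
    T.sigma (fun t => t.pi (fun u => univ.filter (fun x => c x = u)))
  have hS : S.card = ∑ t ∈ T, ∏ u ∈ t, ν u := by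
    rw [Finset.card_sigma]
    refine Finset.sum_congr rfl fun t _ => ?_
    rw [Finset.card_pi]
    exact Finset.prod_congr rfl fun u _ => hc u
  rw [← hS]
  have hmem : ∀ z ∈ S, z.1 ∈ T ∧ ∀ u (hu : u ∈ z.1), c (z.2 u hu) = u := by
    intro z hz
    rw [Finset.mem_sigma] at hz
    refine ⟨hz.1, fun u hu => ?_⟩
    have := (Finset.mem_pi.mp hz.2) u hu
    simpa using this
  have himg : ∀ z ∈ S, (z.1.attach.image (fun u => z.2 u.1 u.2)).image c = z.1 := by
    intro z hz
    obtain ⟨-, h2⟩ := hmem z hz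
    ext u
    simp only [mem_image, mem_attach, true_and, Subtype.exists]
    constructor
    · rintro ⟨x, ⟨v, hv, rfl⟩, hx⟩
      rw [h2 v hv] at hx
      rwa [← hx]
    · intro hu
      exact ⟨z.2 u hu, ⟨u, hu, rfl⟩, h2 u hu⟩
  apply Finset.card_le_card_of_injOn (fun z => z.1.attach.image (fun u => z.2 u.1 u.2))
  · intro z hz
    have hz' : z ∈ S := hz
    obtain ⟨h1, h2⟩ := hmem z hz'
    rw [Finset.mem_coe, Finset.mem_filter]
    refine ⟨mem_univ _, ?_, ?_⟩
    · rw [Finset.card_image_of_injective, Finset.card_attach, hT _ h1]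
      intro u v huv
      apply Subtype.ext
      have := congrArg c huv
      simp only [h2] at this
      exact this
    · show (z.1.attach.image (fun u => z.2 u.1 u.2)).image c ∈ T
      rw [himg z hz']; exact h1
  · intro z hz z' hz' hzz
    have hz1 : z ∈ S := hz
    have hz2 : z' ∈ S := hz'
    have e1 : z.1 = z'.1 := by
      rw [← himg z hz1, ← himg z' hz2]
      exact congrArg (fun y => Finset.image c y) hzz
    obtain ⟨t, g⟩ := z
    obtain ⟨t', g'⟩ := z'
    simp only at e1
    subst e1
    congr 1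
    funext u hu
    have h3 : g u hu ∈ t.attach.image (fun u => g' u.1 u.2) := by
      have hzz' : t.attach.image (fun u => g u.1 u.2) = t.attach.image (fun u => g' u.1 u.2) := hzz
      rw [← hzz']
      exact mem_image.mpr ⟨⟨u, hu⟩, mem_attach _ _, rfl⟩
    obtain ⟨v, -, hv⟩ := mem_image.mp h3
    have h4 := (hmem _ hz1).2 u hu
    have h5 := (hmem _ hz2).2 v.1 v.2
    simp only at h4 h5
    have h6 : v.1 = u := by
      rw [← h5, ← h4]
      exact congrArg c hv
    rw [← hv]
    subst h6
    rfl

/-- the extremal number is at least the number of the edges of the blow-up -/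
lemma lower_of_pattern_exN {k m n : ℕ} (L : Finset (Finset (Fin m)))
    {U : Type} [Fintype U] [DecidableEq U] (T : Finset (Finset U))
    (hno : ∀ φ : Fin m → U, ¬ ∀ e ∈ L, e.image φ ∈ T) (c : Fin n → U) :
    (univ.filter (fun e : Finset (Fin n) => e.card = k ∧ e.image c ∈ T)).card ≤ exN k m L n := by
  unfold exN
  apply le_csSup
  · refine ⟨Fintype.card (Finset (Fin n)), ?_⟩
    rintro t ⟨H, -, h2, -⟩
    rw [← h2]
    exact Finset.card_le_univ H
  · refine ⟨_, ?_, rfl, ?_⟩
    · intro A hA
      exact (mem_filter.mp hA).2.1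
    · rintro ⟨f, hf⟩
      apply hno (fun i => c (f i))
      intro e he
      have h1 := (mem_filter.mp (hf e he)).2.2
      have h2 : (e.map f).image c = e.image (fun i => c (f i)) := by
        ext u
        simp
      rwa [h2] at h1

/- TARGET. Plain proof. It suffices that for every `s ≥ 1` with `M * s ≥ k`, `n = M * s`:
`k! * lag T (μ/M) ≤ exN k m L n / C(n,k)` (then pass to the limit along `n = M * s`, `s → ∞`, with `ge_of_tendsto`).
Since `∑ u, μ u * s = n` there is `c : Fin n → U` whose fibre over `u` has exactly `μ u * s` elements (from an equivalence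
`Fin n ≃ Σ u, Fin (μ u * s)`). `H = {e ⊆ Fin n | e.card = k ∧ e.image c ∈ T}`. `H` has no copy of `L`: an
embedding `f` with `e.map f ∈ H` for `e ∈ L` gives `φ = c ∘ f` with `e.image φ = (e.map f).image c ∈ T`, excluded by `hno`.
The set in the definition of `exN` is bounded above (by the number of all finsets of finsets, or `C(n,k)`), so `H.card ≤ exN k m L n`.
`H.card = ∑ t ∈ T, ∏ u ∈ t, (μ u * s)`: `H` is the disjoint union over `t ∈ T` of `{e | e.card = k, e.image c = t}`, and such `e`
correspond to choice functions `u ∈ t ↦` element of the fibre over `u` (`Finset.pi t fibre`, or `Fintype.piFinset`); as `t.card = k = e.card`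
`c` is injective on `e`. Hence `H.card = s^k ∑_t ∏ μ u`, and `C(n,k) ≤ n^k / k! = (M s)^k / k!` gives the ratio
`≥ k! ∑_t ∏ (μ u / M)`. -/
theorem lower_of_pattern {k m : ℕ} (L : Finset (Finset (Fin m)))
    {U : Type} [Fintype U] [DecidableEq U] (T : Finset (Finset U)) (hT : ∀ e ∈ T, e.card = k)
    (hno : ∀ φ : Fin m → U, ¬ ∀ e ∈ L, e.image φ ∈ T)
    (μ : U → ℕ) (M : ℕ) (hM : 0 < M) (hμ : ∑ u, μ u = M) (d : ℝ)
    (hd : Filter.Tendsto (fun n : ℕ => (exN k m L n : ℝ) / ((n.choose k : ℕ) : ℝ))
      Filter.atTop (nhds d)) :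
    (k.factorial : ℝ) * lag T (fun u => (μ u : ℝ) / (M : ℝ)) ≤ d := by
  have key : ∀ s : ℕ, 1 ≤ s → k ≤ M * s →
      (k.factorial : ℝ) * lag T (fun u => (μ u : ℝ) / (M : ℝ)) ≤
        (exN k m L (M * s) : ℝ) / (((M * s).choose k : ℕ) : ℝ) := by
    intro s hs hks
    have hν : ∑ u, μ u * s = M * s := by rw [← Finset.sum_mul, hμ]
    obtain ⟨c, hc⟩ := lower_of_pattern_col (fun u => μ u * s) (M * s) hν
    have h1 := lower_of_pattern_card T hT (fun u => μ u * s) c hc
    have h2 := h1.trans (lower_of_pattern_exN (k := k) L T hno c)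
    have h3 : (∑ t ∈ T, ∏ u ∈ t, ((μ u : ℝ) * s)) ≤ (exN k m L (M * s) : ℝ) := by
      have : ((∑ t ∈ T, ∏ u ∈ t, (μ u * s) : ℕ) : ℝ) ≤ (exN k m L (M * s) : ℝ) :=
        Nat.cast_le.mpr h2
      push_cast at this
      exact this
    have hM' : (0 : ℝ) < M := by exact_mod_cast hM
    have hs' : (0 : ℝ) < s := by exact_mod_cast hs
    have hch : (0 : ℝ) < (((M * s).choose k : ℕ) : ℝ) := by
      exact_mod_cast Nat.choose_pos hks
    have hch2 : (((M * s).choose k : ℕ) : ℝ) ≤ ((M : ℝ) * s) ^ k / k.factorial := by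
      have := Nat.choose_le_pow_div (α := ℝ) k (M * s)
      push_cast at this
      exact this
    have hkf : (0 : ℝ) < k.factorial := by exact_mod_cast Nat.factorial_pos k
    have h4 : lag T (fun u => (μ u : ℝ) / (M : ℝ)) * ((M : ℝ) * s) ^ k =
        ∑ t ∈ T, ∏ u ∈ t, ((μ u : ℝ) * s) := by
      rw [lag, Finset.sum_mul]
      refine Finset.sum_congr rfl fun t ht => ?_
      rw [← hT t ht, ← Finset.prod_const, ← Finset.prod_mul_distrib]
      refine Finset.prod_congr rfl fun u _ => ?_
      field_simp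
    have h5 : 0 ≤ lag T (fun u => (μ u : ℝ) / (M : ℝ)) := by
      rw [lag]; positivity
    rw [le_div_iff₀ hch]
    calc (k.factorial : ℝ) * lag T (fun u => (μ u : ℝ) / (M : ℝ)) *
          (((M * s).choose k : ℕ) : ℝ)
        ≤ (k.factorial : ℝ) * lag T (fun u => (μ u : ℝ) / (M : ℝ)) *
          (((M : ℝ) * s) ^ k / k.factorial) := by
          exact mul_le_mul_of_nonneg_left hch2 (by positivity)
      _ = lag T (fun u => (μ u : ℝ) / (M : ℝ)) * ((M : ℝ) * s) ^ k := by
          field_simp
      _ ≤ (exN k m L (M * s) : ℝ) := by rw [h4]; exact h3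
  have htend : Filter.Tendsto (fun s : ℕ => M * s) Filter.atTop Filter.atTop :=
    Filter.tendsto_id.const_mul_atTop' hM
  refine ge_of_tendsto (hd.comp htend) ?_
  filter_upwards [Filter.eventually_ge_atTop 1, htend.eventually (Filter.eventually_ge_atTop k)]
    with s hs1 hs2
  exact key s hs1 hs2

end Pool.Agent.helper163_WO
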