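import Pool.Agent.helper163_WO.Defs

set_option autoImplicit false

namespace Pool.Agent.helper163_WO

open Finset

/- TARGET. Plain proof. For `s t : J → V` with all `s j ∈ X j`, `t j ∈ X j`, `s j ≠ t j` for all `j`
(everywhere distinct, EWD): `φ s ≠ φ t`. Indeed by the pair covering clause of `Rich` choose for each
`j` an edge `e_j ∈ G j` containing `s j, t j`; list it as an injective `c j : Fin k → V` with image
`e_j`, `c j 0 = s j`, `c j 1 = t j`; then `{fun j => c j i | i : Fin k}` (image of `univ : Finset (Fin k)`)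
has `k` elements (J nonempty) and lies in `prodG k G`; its image under `φ` is in `TE k E`, all of whose
members have card `k`, so `φ` is injective on it.
Now: if some `ω` with all `ω j ∈ X j` has `φ ω = none` take `ξ = ω`, otherwise `ξ j ∈ X j` arbitrary. By
richness choose `S j ⊆ (X j).erase (ξ j)` nonempty with `HasPriv (link (G j) (S j) x) k` for `x ∈ S j`.
`B = Fintype.piFinset S`. For `s ∈ B`: `φ s ≠ none` (EWD from ω, in the first case). Let `s ∈ B`. For each
`j` there are `F j i ∈ link (G j) (S j) (s j)` (`i : Fin k`) with private vertices `p j i ∈ F j i`,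
`p j i ∉ F j i'` for `i' ≠ i`. `F j i` has `k-1` elements, does not contain `s j`, and
`insert (s j) (F j i) ∈ G j` is a subset of `S j`. List `F j i` as injective `v j i : Fin (k-1) → V` whose last
value is `p j i`. `t i ρ := fun j => v j i ρ ∈ B`. `e i = insert s (image (t i) univ)` is in `prodG k G`,
`e i ⊆ B`, so `h i := (e i).image φ ∈ TE k E` does not contain `none`, so it is `h'_i.image some` with
`h'_i ∈ E`, and it contains `φ s`. For `i ≠ i'` the vertex `t i last` is EWD from `s` and from all `t i' ρ`,
so `φ (t i last)` is in `h i` but not in `h i'`. So the point `φ s` lies in at least `k` different members of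
`E` all contained in `S₀ := {x : A | some x ∈ B.image φ}`. Double counting incidences (each member of `E`
has `k` elements): `k * |E.filter (· ⊆ S₀)| ≥ k * |S₀|`, contradicting `Sparse` (S₀ nonempty,
`|S₀| ≤ |J → V|`). -/
theorem no_hom_list2 {k : ℕ} (hk : 2 ≤ k) {V : Type} [DecidableEq V] (e : Finset V)
    (he : e.card = k) (x y : V) (hx : x ∈ e) (hy : y ∈ e) (hxy : x ≠ y) :
    ∃ c : Fin k → V, Function.Injective c ∧ univ.image c = e ∧ c ⟨0, by omega⟩ = x ∧
      c ⟨1, by omega⟩ = y := by
  classical
  have h01 : (⟨1, by omega⟩ : Fin k) ≠ ⟨0, by omega⟩ := by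
    intro h
    rw [Fin.mk.injEq] at h
    omega
  obtain ⟨g, hg⟩ := Finset.exists_equiv_extend_of_card_eq (α := Fin k) (t := e)
    (by simp [he]) (s := {⟨0, by omega⟩, ⟨1, by omega⟩})
    (f := fun i => if i = ⟨0, by omega⟩ then x else y)
    (by
      intro z hz
      rw [mem_image] at hz
      obtain ⟨i, _, rfl⟩ := hz
      split_ifs
      · exact hx
      · exact hy)
    (by
      intro a ha b hb hab
      simp only [coe_insert, coe_singleton, Set.mem_insert_iff, Set.mem_singleton_iff] at ha hb
      have f0 : ∀ i : Fin k, i = ⟨0, by omega⟩ →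
          (if i = (⟨0, by omega⟩ : Fin k) then x else y) = x := fun i hi => if_pos hi
      have f1 : ∀ i : Fin k, i = ⟨1, by omega⟩ →
          (if i = (⟨0, by omega⟩ : Fin k) then x else y) = y := fun i hi => by
        rw [hi]; exact if_neg h01
      rcases ha with ha | ha <;> rcases hb with hb | hb
      · rw [ha, hb]
      · exact absurd ((f0 a ha).symm.trans (hab.trans (f1 b hb))) hxy
      · exact absurd ((f0 b hb).symm.trans (hab.symm.trans (f1 a ha))) hxy
      · rw [ha, hb])
  refine ⟨fun i => (g i : V), fun a b h => g.injective (Subtype.ext h), ?_, ?_, ?_⟩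
  · ext z
    simp only [mem_image, mem_univ, true_and]
    constructor
    · rintro ⟨i, rfl⟩
      exact (g i).2
    · intro hz
      exact ⟨g.symm ⟨z, hz⟩, by simp⟩
  · have := hg ⟨0, by omega⟩ (by simp)
    simpa using this
  · have := hg ⟨1, by omega⟩ (by simp)
    rw [if_neg h01] at this
    exact this

theorem no_hom_edge {k : ℕ} {J V A : Type} [Fintype J] [DecidableEq J] [Nonempty J]
    [Fintype V] [DecidableEq V] [Fintype A] [DecidableEq A]
    (G : J → Finset (Finset V))
    (E : Finset (Finset A)) (hE : ∀ e ∈ E, e.card = k)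
    (φ : (J → V) → Option A) (hφ : ∀ e ∈ prodG k G, e.image φ ∈ TE k E)
    (c : Fin k → J → V) (hinj : ∀ j, Function.Injective (fun i => c i j))
    (hG : ∀ j, univ.image (fun i => c i j) ∈ G j) :
    univ.image (fun i => φ (c i)) ∈ TE k E ∧ Function.Injective (fun i => φ (c i)) := by
  classical
  obtain ⟨j0⟩ := (inferInstance : Nonempty J)
  have hcinj : Function.Injective c := by
    intro a b hab
    apply hinj j0
    show c a j0 = c b j0
    rw [hab]
  have he : univ.image c ∈ prodG k G := by
    unfold prodG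
    rw [mem_filter]
    refine ⟨mem_univ _, ?_, ?_⟩
    · rw [card_image_of_injective _ hcinj]
      simp
    · intro j
      rw [image_image]
      exact hG j
  have h1 := hφ _ he
  rw [image_image] at h1
  have h2 : univ.image (fun i => φ (c i)) ∈ TE k E := h1
  refine ⟨h2, ?_⟩
  have h3 : (univ.image (fun i => φ (c i))).card = k := by
    unfold TE at h2
    rcases mem_union.1 h2 with h2 | h2
    · exact (mem_powersetCard.1 (mem_filter.1 h2).1).2
    · obtain ⟨e, he, h2⟩ := mem_image.1 h2
      rw [← h2, card_image_of_injective _ (Option.some_injective A)]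
      exact hE e he
  have h4 : Set.InjOn (fun i => φ (c i)) (univ : Finset (Fin k)) := by
    rw [← Finset.card_image_iff, h3]
    simp
  intro a b hab
  exact h4 (by simp) (by simp) hab

theorem no_hom {k : ℕ} (hk : 2 ≤ k) {J V A : Type} [Fintype J] [DecidableEq J] [Nonempty J]
    [Fintype V] [DecidableEq V] [Fintype A] [DecidableEq A]
    (X : J → Finset V) (G : J → Finset (Finset V)) (hR : ∀ j, Rich k (X j) (G j))
    (E : Finset (Finset A)) (hE : ∀ e ∈ E, e.card = k)
    (hS : Sparse (Fintype.card (J → V)) E)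
    (φ : (J → V) → Option A) (hφ : ∀ e ∈ prodG k G, e.image φ ∈ TE k E) : False := by
  classical
  -- everywhere distinct points have distinct images
  have EWD : ∀ s t : J → V, (∀ j, s j ∈ X j) → (∀ j, t j ∈ X j) → (∀ j, s j ≠ t j) →
      φ s ≠ φ t := by
    intro s t hs ht hst
    have hc : ∀ j, ∃ c : Fin k → V, Function.Injective c ∧ univ.image c ∈ G j ∧
        c ⟨0, by omega⟩ = s j ∧ c ⟨1, by omega⟩ = t j := by
      intro j
      obtain ⟨_, hcard, hpair, _⟩ := hR j
      obtain ⟨e, he, hse, hte⟩ := hpair (s j) (hs j) (t j) (ht j) (hst j)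
      obtain ⟨c, h1, h2, h3, h4⟩ := no_hom_list2 hk e (hcard e he).1 (s j) (t j) hse hte (hst j)
      exact ⟨c, h1, by rw [h2]; exact he, h3, h4⟩
    choose c hc1 hc2 hc3 hc4 using hc
    have h := (no_hom_edge G E hE φ hφ (fun i j => c j i) (fun j => hc1 j) (fun j => hc2 j)).2
    intro hEq
    have h5 : φ (fun j => c j ⟨0, by omega⟩) = φ (fun j => c j ⟨1, by omega⟩) := by
      have e1 : (fun j => c j ⟨0, by omega⟩) = s := funext hc3
      have e2 : (fun j => c j ⟨1, by omega⟩) = t := funext hc4
      rw [e1, e2]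
      exact hEq
    have h6 := h h5
    rw [Fin.mk.injEq] at h6
    omega
  -- choice of ξ
  obtain ⟨ξ, hξX, hξ⟩ : ∃ ξ : J → V, (∀ j, ξ j ∈ X j) ∧
      ∀ s : J → V, (∀ j, s j ∈ X j) → (∀ j, s j ≠ ξ j) → φ s ≠ none := by
    by_cases hω : ∃ ω : J → V, (∀ j, ω j ∈ X j) ∧ φ ω = none
    · obtain ⟨ω, hω1, hω2⟩ := hω
      refine ⟨ω, hω1, ?_⟩
      intro s hs hsω
      rw [← hω2]
      exact EWD s ω hs hω1 hsω
    · choose ξ hξ using fun j => (hR j).1
      refine ⟨ξ, hξ, ?_⟩
      intro s hs _ hn
      exact hω ⟨s, hs, hn⟩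
  have hch : ∀ j, ∃ S : Finset V, S ⊆ (X j).erase (ξ j) ∧ S.Nonempty ∧
      ∀ x ∈ S, HasPriv (link (G j) S x) k := fun j => (hR j).2.2.2 (ξ j) (hξX j)
  choose S hSX hSne hSp using hch
  have hSX1 : ∀ j, ∀ x ∈ S j, x ∈ X j := fun j x hx => mem_of_mem_erase (hSX j hx)
  have hSX2 : ∀ j, ∀ x ∈ S j, x ≠ ξ j := fun j x hx => ne_of_mem_erase (hSX j hx)
  let B : Finset (J → V) := Fintype.piFinset S
  have hB : ∀ s, s ∈ B ↔ ∀ j, s j ∈ S j := fun s => Fintype.mem_piFinset
  have hBn : ∀ s ∈ B, φ s ≠ none := by
    intro s hs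
    rw [hB] at hs
    exact hξ s (fun j => hSX1 j _ (hs j)) (fun j => hSX2 j _ (hs j))
  let S0 : Finset A := univ.filter (fun a => some a ∈ B.image φ)
  -- the main local statement
  have key : ∀ a ∈ S0, k ≤ ((E.filter (fun e => e ⊆ S0)).filter (fun e => a ∈ e)).card := by
    intro a ha
    have ha' : some a ∈ B.image φ := (mem_filter.1 ha).2
    obtain ⟨s, hsB, hsa⟩ := mem_image.1 ha'
    have hs := (hB s).1 hsB
    have hP := fun j => hSp j (s j) (hs j)
    unfold HasPriv at hP
    choose F p hF hp hpF using hP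
    have hF' : ∀ j i, s j ∉ F j i ∧ insert (s j) (F j i) ∈ G j ∧ insert (s j) (F j i) ⊆ S j := by
      intro j i
      have := hF j i
      unfold link at this
      rw [mem_image] at this
      obtain ⟨e, he, heF⟩ := this
      rw [mem_filter] at he
      obtain ⟨he1, he2, he3⟩ := he
      rw [← heF, insert_erase he2]
      exact ⟨notMem_erase _ _, he1, he3⟩
    have hc : ∀ j i, ∃ c : Fin k → V, Function.Injective c ∧
        univ.image c = insert (s j) (F j i) ∧ c ⟨0, by omega⟩ = s j ∧ c ⟨1, by omega⟩ = p j i := by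
      intro j i
      obtain ⟨h1, h2, h3⟩ := hF' j i
      apply no_hom_list2 hk _ ((hR j).2.1 _ h2).1
      · exact mem_insert_self _ _
      · exact mem_insert_of_mem (hp j i)
      · intro h
        rw [h] at h1
        exact h1 (hp j i)
    choose c hc1 hc2 hc3 hc4 using hc
    have hcm : ∀ j i ρ, c j i ρ ∈ insert (s j) (F j i) := by
      intro j i ρ
      rw [← hc2 j i]
      exact mem_image_of_mem _ (mem_univ _)
    have hcB : ∀ i ρ, (fun j => c j i ρ) ∈ B := by
      intro i ρ
      rw [hB]
      intro j
      exact (hF' j i).2.2 (hcm j i ρ)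
    have hedge := fun i => no_hom_edge G E hE φ hφ (fun ρ j => c j i ρ) (fun j => hc1 j i)
      (fun j => by
        have := (hF' j i).2.1
        rw [← hc2 j i] at this
        exact this)
    have hh : ∀ i : Fin k, ∃ h' ∈ E, h'.image some = univ.image (fun ρ => φ (fun j => c j i ρ)) := by
      intro i
      have h1 := (hedge i).1
      unfold TE at h1
      rcases mem_union.1 h1 with h1 | h1
      · exfalso
        obtain ⟨ρ, _, h3⟩ := mem_image.1 (mem_filter.1 h1).2
        exact hBn _ (hcB i ρ) h3
      · exact mem_image.1 h1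
    choose h' hh1 hh2 using hh
    have hmem : ∀ i, ∀ b, b ∈ h' i ↔ ∃ ρ, φ (fun j => c j i ρ) = some b := by
      intro i b
      constructor
      · intro hb
        have : some b ∈ (h' i).image some := mem_image_of_mem _ hb
        rw [hh2 i, mem_image] at this
        obtain ⟨ρ, _, h3⟩ := this
        exact ⟨ρ, h3⟩
      · rintro ⟨ρ, h3⟩
        have : some b ∈ (h' i).image some := by
          rw [hh2 i, mem_image]
          exact ⟨ρ, mem_univ _, h3⟩
        rw [mem_image] at this
        obtain ⟨b', hb', h4⟩ := this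
        rw [Option.some_inj] at h4
        rw [← h4]
        exact hb'
    have hsub : ∀ i, h' i ⊆ S0 := by
      intro i b hb
      obtain ⟨ρ, hρ⟩ := (hmem i b).1 hb
      rw [mem_filter]
      refine ⟨mem_univ _, ?_⟩
      rw [mem_image]
      exact ⟨_, hcB i ρ, hρ⟩
    have hain : ∀ i, a ∈ h' i := by
      intro i
      rw [hmem]
      refine ⟨⟨0, by omega⟩, ?_⟩
      rw [← hsa]
      congr 1
      funext j
      exact hc3 j i
    have hinj : Function.Injective h' := by
      intro i i' hii
      by_contra hne
      -- the private vertex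
      have h1 : φ (fun j => c j i ⟨1, by omega⟩) ≠ none := hBn _ (hcB i _)
      obtain ⟨b, hb⟩ := Option.ne_none_iff_exists'.1 h1
      have hbi : b ∈ h' i := (hmem i b).2 ⟨_, hb⟩
      rw [hii] at hbi
      obtain ⟨ρ, hρ⟩ := (hmem i' b).1 hbi
      have h2 : φ (fun j => c j i ⟨1, by omega⟩) ≠ φ (fun j => c j i' ρ) := by
        apply EWD
        · intro j
          exact hSX1 j _ ((hF' j i).2.2 (hcm j i _))
        · intro j
          exact hSX1 j _ ((hF' j i').2.2 (hcm j i' _))
        · intro j heq
          rw [hc4 j i] at heq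
          have h3 := hcm j i' ρ
          rw [← heq, mem_insert] at h3
          rcases h3 with h3 | h3
          · have h4 := (hF' j i).1
            rw [← h3] at h4
            exact h4 (hp j i)
          · exact hpF j i i' hne h3
      exact h2 (by rw [hb, hρ])
    calc k = (univ.image h').card := by
          rw [card_image_of_injective _ hinj]; simp
      _ ≤ _ := by
          apply card_le_card
          intro e he
          obtain ⟨i, _, rfl⟩ := mem_image.1 he
          rw [mem_filter, mem_filter]
          exact ⟨⟨hh1 i, hsub i⟩, hain i⟩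
  -- S0 is nonempty and small
  have hS0ne : S0.Nonempty := by
    choose s hs using hSne
    have hsB : s ∈ B := (hB s).2 hs
    obtain ⟨a, ha⟩ := Option.ne_none_iff_exists'.1 (hBn s hsB)
    refine ⟨a, ?_⟩
    rw [mem_filter]
    exact ⟨mem_univ _, by rw [← ha]; exact mem_image_of_mem _ hsB⟩
  have hS0card : S0.card ≤ Fintype.card (J → V) := by
    calc S0.card = (S0.image some).card := (card_image_of_injective _ (Option.some_injective A)).symm
      _ ≤ (B.image φ).card := by
          apply card_le_card
          intro x hx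
          obtain ⟨a, ha, rfl⟩ := mem_image.1 hx
          exact (mem_filter.1 ha).2
      _ ≤ B.card := card_image_le
      _ ≤ Fintype.card (J → V) := card_le_univ _
  have hsp := hS S0 hS0ne hS0card
  -- double counting
  have hdc : ∑ a ∈ S0, ((E.filter (fun e => e ⊆ S0)).filter (fun e => a ∈ e)).card
      = ∑ e ∈ E.filter (fun e => e ⊆ S0), (S0.filter (fun a => a ∈ e)).card := by
    exact Finset.sum_card_bipartiteAbove_eq_sum_card_bipartiteBelow (fun a e => a ∈ e)
  have h1 : k * S0.card ≤ ∑ a ∈ S0, ((E.filter (fun e => e ⊆ S0)).filter (fun e => a ∈ e)).card := by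
    calc k * S0.card = ∑ _a ∈ S0, k := by rw [sum_const, smul_eq_mul, mul_comm]
      _ ≤ _ := sum_le_sum key
  have h2 : ∑ e ∈ E.filter (fun e => e ⊆ S0), (S0.filter (fun a => a ∈ e)).card
      ≤ k * (E.filter (fun e => e ⊆ S0)).card := by
    calc _ ≤ ∑ _e ∈ E.filter (fun e => e ⊆ S0), k := by
          apply sum_le_sum
          intro e he
          rw [← hE e (mem_filter.1 he).1]
          apply card_le_card
          intro x hx
          exact (mem_filter.1 hx).2
      _ = _ := by rw [sum_const, smul_eq_mul, mul_comm]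
  rw [hdc] at h1
  have h3 := h1.trans h2
  have h4 := Nat.le_of_mul_le_mul_left h3 (by omega)
  omega

end Pool.Agent.helper163_WO
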