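import Pool.Agent.helper163_WO.Defs

set_option autoImplicit false

namespace Pool.Agent.helper163_WO

open Finset


theorem TE_lag_desc (m : ℕ) : ∀ r : ℕ, r ≤ m →
    (m : ℝ) ^ (r + 1) - ((r : ℝ) * (r + 1) / 2) * (m : ℝ) ^ r ≤ (m.descFactorial (r + 1) : ℝ) := by
  intro r
  induction r with
  | zero =>
    intro _
    rw [Nat.descFactorial_one]
    simp
  | succ r ih =>
    intro hr
    have h1 := ih (by omega)
    rw [Nat.descFactorial_succ m (r + 1), Nat.cast_mul, Nat.cast_sub hr]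
    have hm : (0 : ℝ) ≤ (m : ℝ) - ((r + 1 : ℕ) : ℝ) := by
      rw [sub_nonneg]
      exact_mod_cast hr
    have h2 := mul_le_mul_of_nonneg_left h1 hm
    refine le_trans ?_ h2
    push_cast
    have h3 : (0 : ℝ) ≤ ((r : ℝ) + 1) * ((r : ℝ) * (r + 1) / 2) * (m : ℝ) ^ r := by positivity
    have e1 : ((m : ℝ) - ((r : ℝ) + 1)) * ((m : ℝ) ^ (r + 1) - (r : ℝ) * (r + 1) / 2 * (m : ℝ) ^ r)
        = (m : ℝ) ^ (r + 1 + 1) - (((r : ℝ) + 1) * (r + 1 + 1) / 2) * (m : ℝ) ^ (r + 1) +
          ((r : ℝ) + 1) * ((r : ℝ) * (r + 1) / 2) * (m : ℝ) ^ r := by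
      ring
    rw [e1]
    linarith

theorem TE_lag_A {k m : ℕ} (hk : 1 ≤ k) :
    (powersetCard k (univ : Finset (Option (Fin m)))).filter (fun e => none ∈ e) =
      (powersetCard (k - 1) (univ : Finset (Fin m))).image (fun Y => insertNone Y) := by
  ext e
  simp only [mem_filter, mem_powersetCard, mem_image, subset_univ, true_and]
  constructor
  · rintro ⟨h1, h2⟩
    have h3 : insertNone (eraseNone e) = e := by
      rw [insertNone_eraseNone, insert_eq_of_mem h2]
    refine ⟨eraseNone e, ?_, h3⟩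
    have h4 : (insertNone (eraseNone e)).card = (eraseNone e).card + 1 := card_insertNone _
    rw [h3] at h4
    omega
  · rintro ⟨Y, h1, rfl⟩
    refine ⟨?_, none_mem_insertNone⟩
    rw [card_insertNone]
    omega

theorem TE_lag_eq {k m : ℕ} (hk : 3 ≤ k) (E : Finset (Finset (Fin m)))
    (hE : ∀ e ∈ E, e.card = k) (w : Option (Fin m) → ℝ) (α β : ℝ) (h0 : w none = α)
    (h1 : ∀ x, w (some x) = β) :
    lag (TE k E) w = (m.choose (k - 1) : ℝ) * (α * β ^ (k - 1)) + (E.card : ℝ) * β ^ k := by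
  rw [lag, TE, sum_union]
  · congr 1
    · rw [TE_lag_A (by omega), sum_image (fun a _ b _ h => insertNone.injective h)]
      have : ∀ Y ∈ powersetCard (k - 1) (univ : Finset (Fin m)),
          ∏ v ∈ insertNone Y, w v = α * β ^ (k - 1) := by
        intro Y hY
        rw [prod_insertNone, h0, prod_congr rfl (fun x _ => h1 x), prod_const,
          (mem_powersetCard.1 hY).2]
      rw [sum_congr rfl this, sum_const, card_powersetCard, card_univ, Fintype.card_fin,
        nsmul_eq_mul]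
    · rw [sum_image (fun a _ b _ h => image_injective (Option.some_injective _) h)]
      have : ∀ e ∈ E, ∏ v ∈ e.image some, w v = β ^ k := by
        intro e he
        rw [prod_image (fun a _ b _ h => Option.some_injective _ h),
          prod_congr rfl (fun x _ => h1 x), prod_const, hE e he]
      rw [sum_congr rfl this, sum_const, nsmul_eq_mul]
  · rw [disjoint_left]
    intro e h2 h3
    rw [mem_filter] at h2
    obtain ⟨e', _, rfl⟩ := mem_image.1 h3
    have := h2.2
    simp at this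

/- TARGET. Plain proof. Weights: `w none = m/(k m) = 1/k`, `w (some x) = (k-1)/(k m)`. `TE k E` is the disjoint union of
the `k`-sets containing `none` (they are `insert none (Y.image some)`, `Y` a `(k-1)`-subset of `Fin m`; there are
`C(m,k-1)` of them, each of weight `(1/k) ((k-1)/(k m))^(k-1)`) and the images of the members of `E` (weight
`((k-1)/(k m))^k` each; `image some` is injective). So, with `r = k-1`,
`lag = (1/k) C(m,r) (r/(k m))^r + |E| (r/(k m))^k`. By induction on `r`, `descFactorial m r ≥ m^r - (r(r-1)/2) m^(r-1)` for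
`1 ≤ r ≤ m` (real inequality), so `C(m,r) ≥ (m^r - (r(r-1)/2) m^(r-1)) / r!`. Also `al k / k! = (1/k)(r/k)^r / r!`. The claim becomes
`|E| (r/k)^k / m^k > (1/k)(r/k)^r/r! * (r(r-1)/2)/m`, i.e. `|E| > (r-1)/(2 r!) m^r`, the hypothesis. -/
theorem TE_lag {k m : ℕ} (hk : 3 ≤ k) (hm : k ≤ m) (E : Finset (Finset (Fin m)))
    (hE : ∀ e ∈ E, e.card = k)
    (hc : ((k : ℝ) - 2) / (2 * ((k - 1).factorial : ℝ)) * (m : ℝ) ^ (k - 1) < (E.card : ℝ)) :
    al k / (k.factorial : ℝ) < lag (TE k E) (fun v : Option (Fin m) =>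
      (((if v = none then m else k - 1 : ℕ) : ℝ)) / ((k * m : ℕ) : ℝ)) := by
  obtain ⟨r, rfl⟩ : ∃ r, k = r + 2 := ⟨k - 2, by omega⟩
  have hr : 1 ≤ r := by omega
  have hm0 : (0 : ℝ) < m := by exact_mod_cast (by omega : 0 < m)
  have hk0 : (0 : ℝ) < ((r + 2 : ℕ) : ℝ) := by positivity
  have hr0 : (0 : ℝ) < ((r + 1 : ℕ) : ℝ) := by positivity
  rw [TE_lag_eq hk E hE _ (1 / ((r + 2 : ℕ) : ℝ))
    (((r + 1 : ℕ) : ℝ) / (((r + 2 : ℕ) : ℝ) * (m : ℝ))) (by
      rw [if_pos rfl, Nat.cast_mul]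
      field_simp) (by
      intro x
      rw [if_neg (by simp), Nat.cast_mul]
      rfl)]
  have hsub : r + 2 - 1 = r + 1 := by omega
  rw [hsub] at hc ⊢
  have hd := TE_lag_desc m r (by omega)
  have hchoose : (m.choose (r + 1) : ℝ) = (m.descFactorial (r + 1) : ℝ) / ((r + 1).factorial : ℝ) := by
    rw [Nat.choose_eq_descFactorial_div_factorial, Nat.cast_div
      (Nat.factorial_dvd_descFactorial _ _) (by positivity)]
  have hfact : (((r + 2).factorial : ℕ) : ℝ) = ((r + 2 : ℕ) : ℝ) * ((r + 1).factorial : ℝ) := by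
    rw [Nat.factorial_succ (r + 1), Nat.cast_mul]
  have hf0 : (0 : ℝ) < ((r + 1).factorial : ℝ) := by positivity
  rw [al, hsub, hchoose, hfact]
  have e0 : (1 : ℝ) - 1 / ((r + 2 : ℕ) : ℝ) = ((r + 1 : ℕ) : ℝ) / ((r + 2 : ℕ) : ℝ) := by
    rw [eq_div_iff hk0.ne', sub_mul, one_div, inv_mul_cancel₀ hk0.ne']
    push_cast
    ring
  rw [e0]
  set K : ℝ := ((r + 2 : ℕ) : ℝ) with hK
  set R : ℝ := ((r + 1 : ℕ) : ℝ) with hR
  set f : ℝ := ((r + 1).factorial : ℝ) with hf
  set D : ℝ := (m.descFactorial (r + 1) : ℝ) with hD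
  set M : ℝ := (m : ℝ) with hM
  set c : ℝ := (E.card : ℝ) with hcc
  have hrR : (r : ℝ) = R - 1 := by rw [hR]; push_cast; ring
  have hKR : K - 2 = R - 1 := by rw [hK, hR]; push_cast; ring
  rw [hKR] at hc
  rw [hrR] at hd
  have hd' : M ^ (r + 1) - ((R - 1) * R / 2) * M ^ r ≤ D := by
    have : R - 1 + 1 = R := by ring
    rw [this] at hd
    exact hd
  have hMp : 0 < M ^ (r + 1) := by positivity
  have hMr : 0 < M ^ r := by positivity
  have hKp : 0 < K ^ (r + 1) := by positivity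
  have hRp : 0 < R ^ (r + 1) := by positivity
  have key : M ^ (r + 1) * M * K < D * M * K + c * R * f * K := by
    have h1 : (R - 1) * M ^ (r + 1) < c * (2 * f) := by
      rw [div_mul_eq_mul_div, div_lt_iff₀ (by positivity)] at hc
      exact hc
    have h2 : (M ^ (r + 1) - ((R - 1) * R / 2) * M ^ r) * M ≤ D * M :=
      mul_le_mul_of_nonneg_right hd' hm0.le
    have h3 : ((R - 1) * M ^ (r + 1)) * R < (c * (2 * f)) * R := mul_lt_mul_of_pos_right h1 hr0
    have h4 : M ^ (r + 1) = M ^ r * M := pow_succ _ _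
    have h5 : M ^ (r + 1) * M < D * M + c * R * f := by
      nlinarith
    nlinarith
  have e1 : (R / K) ^ (r + 1) / (K * f) =
      (R ^ (r + 1) / (K ^ (r + 1) * K * f * M ^ (r + 1) * M * K)) * (M ^ (r + 1) * M * K) := by
    rw [div_pow]
    field_simp
  have e2 : D / f * (1 / K * (R / (K * M)) ^ (r + 1)) + c * (R / (K * M)) ^ (r + 2) =
      (R ^ (r + 1) / (K ^ (r + 1) * K * f * M ^ (r + 1) * M * K)) *
        (D * M * K + c * R * f * K) := by
    rw [div_pow, div_pow, mul_pow, mul_pow, pow_succ R (r + 1), pow_succ K (r + 1),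
      pow_succ M (r + 1)]
    field_simp
  rw [e1, e2]
  exact mul_lt_mul_of_pos_left key (by positivity)

end Pool.Agent.helper163_WO
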