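import Pool.Agent.helper163_WO.Defs

set_option autoImplicit false

namespace Pool.Agent.helper163_WO

open Finset

theorem card_supersets {k n N : ℕ} (hk : k ≤ n) (e : Finset (Fin N)) (he : e.card = k) :
    ((powersetCard n (univ : Finset (Fin N))).filter (fun Z => e ⊆ Z)).card =
      (N - k).choose (n - k) := by
  have h1 : (univ \ e : Finset (Fin N)).card = N - k := by
    rw [card_sdiff_of_subset (subset_univ _), card_univ, Fintype.card_fin, he]
  rw [← h1, ← card_powersetCard]
  refine card_nbij' (fun Z => Z \ e) (fun W => W ∪ e) ?_ ?_ ?_ ?_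
  · intro Z hZ
    simp only [coe_filter, mem_powersetCard, Set.mem_ofPred_eq] at hZ
    simp only [mem_coe, mem_powersetCard]
    refine ⟨sdiff_subset_sdiff (subset_univ _) le_rfl, ?_⟩
    rw [card_sdiff_of_subset hZ.2, hZ.1.2, he]
  · intro W hW
    simp only [mem_coe, mem_powersetCard] at hW
    simp only [coe_filter, mem_powersetCard, Set.mem_ofPred_eq]
    refine ⟨⟨subset_univ _, ?_⟩, subset_union_right⟩
    have hdis : Disjoint W e := by
      rw [disjoint_left]
      intro x hx hxe
      exact (mem_sdiff.1 (hW.1 hx)).2 hxe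
    rw [card_union_of_disjoint hdis, hW.2, he]
    omega
  · intro Z hZ
    simp only [coe_filter, mem_powersetCard, Set.mem_ofPred_eq] at hZ
    exact sdiff_union_of_subset hZ.2
  · intro W hW
    simp only [mem_coe, mem_powersetCard] at hW
    have hdis : Disjoint W e := by
      rw [disjoint_left]
      intro x hx hxe
      exact (mem_sdiff.1 (hW.1 hx)).2 hxe
    exact union_sdiff_cancel_right hdis

/- TARGET. Plain proof. `∑_{Z ∈ powersetCard n univ} |{e ∈ H : e ⊆ Z}| = |H| * C(N-k, n-k)` (double counting: a `k`-set is contained in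
`C(N-k,n-k)` `n`-sets), and `C(N,n) C(n,k) = C(N,k) C(N-k,n-k)` (`Nat.choose_mul`). So the sum is `≥ (a+ε) C(N,n) C(n,k)`. On the other hand it is at
most `g * C(n,k) + C(N,n) * (a+ε/2) C(n,k)` where `g` is the number of good `Z`. Divide by `C(n,k) > 0`. -/
theorem averaging {k n N : ℕ} (hk : k ≤ n) (hn : n ≤ N) (H : Finset (Finset (Fin N)))
    (hH : ∀ e ∈ H, e.card = k) (a ε : ℝ) (ha : 0 ≤ a) (hε : 0 < ε)
    (hd : (a + ε) * (N.choose k : ℝ) ≤ (H.card : ℝ)) :
    ε / 2 * (N.choose n : ℝ) ≤ (((powersetCard n (univ : Finset (Fin N))).filter (fun Z =>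
      (a + ε / 2) * (n.choose k : ℝ) ≤ ((H.filter (fun e => e ⊆ Z)).card : ℝ))).card : ℝ) := by
  set P := powersetCard n (univ : Finset (Fin N)) with hP
  have hPc : (P.card : ℝ) = N.choose n := by
    rw [hP, card_powersetCard, card_univ, Fintype.card_fin]
  have hsum : ∑ Z ∈ P, ((H.filter (fun e => e ⊆ Z)).card : ℝ) =
      (H.card : ℝ) * ((N - k).choose (n - k) : ℝ) := by
    have h1 : ∀ Z, ((H.filter (fun e => e ⊆ Z)).card : ℝ) = ∑ e ∈ H, if e ⊆ Z then (1 : ℝ) else 0 := by
      intro Z
      rw [card_filter]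
      push_cast
      rfl
    simp only [h1]
    rw [sum_comm]
    have h2 : ∀ e ∈ H, (∑ Z ∈ P, if e ⊆ Z then (1 : ℝ) else 0) = ((N - k).choose (n - k) : ℝ) := by
      intro e he
      rw [← card_supersets hk e (hH e he), card_filter]
      push_cast
      rfl
    rw [sum_congr rfl h2, sum_const, nsmul_eq_mul]
  set g : ℕ := (P.filter (fun Z =>
      (a + ε / 2) * (n.choose k : ℝ) ≤ ((H.filter (fun e => e ⊆ Z)).card : ℝ))).card with hg
  have hup : ∑ Z ∈ P, ((H.filter (fun e => e ⊆ Z)).card : ℝ) ≤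
      (g : ℝ) * (n.choose k : ℝ) + (N.choose n : ℝ) * ((a + ε / 2) * (n.choose k : ℝ)) := by
    have h1 : ∀ Z ∈ P, ((H.filter (fun e => e ⊆ Z)).card : ℝ) ≤
        (if (a + ε / 2) * (n.choose k : ℝ) ≤ ((H.filter (fun e => e ⊆ Z)).card : ℝ) then 1 else 0) *
          (n.choose k : ℝ) + (a + ε / 2) * (n.choose k : ℝ) := by
      intro Z hZ
      have hpos : 0 ≤ (a + ε / 2) * (n.choose k : ℝ) := by positivity
      split_ifs with h
      · have h2 : (H.filter (fun e => e ⊆ Z)).card ≤ n.choose k := by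
          have hZc : Z.card = n := (mem_powersetCard.1 hZ).2
          rw [← hZc, ← card_powersetCard]
          refine card_le_card fun e he => ?_
          rw [mem_filter] at he
          exact mem_powersetCard.2 ⟨he.2, hH e he.1⟩
        have h3 : ((H.filter (fun e => e ⊆ Z)).card : ℝ) ≤ (n.choose k : ℝ) := by exact_mod_cast h2
        linarith
      · push Not at h
        linarith
    refine (sum_le_sum h1).trans (le_of_eq ?_)
    rw [sum_add_distrib, ← sum_mul, sum_const, nsmul_eq_mul, hPc, hg, card_filter]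
    push_cast
    rfl
  have hch : (N.choose n : ℝ) * (n.choose k : ℝ) =
      (N.choose k : ℝ) * ((N - k).choose (n - k) : ℝ) := by
    exact_mod_cast Nat.choose_mul hk
  have hnk : (0 : ℝ) < n.choose k := by exact_mod_cast Nat.choose_pos hk
  have hlow : (a + ε) * ((N.choose n : ℝ) * (n.choose k : ℝ)) ≤
      (H.card : ℝ) * ((N - k).choose (n - k) : ℝ) := by
    rw [hch, ← mul_assoc]
    exact mul_le_mul_of_nonneg_right hd (Nat.cast_nonneg _)
  rw [hsum] at hup
  have h4 : ε / 2 * (N.choose n : ℝ) * (n.choose k : ℝ) ≤ (g : ℝ) * (n.choose k : ℝ) := by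
    nlinarith
  exact le_of_mul_le_mul_right h4 hnk

end Pool.Agent.helper163_WO

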