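import Pool.Agent.helper163_WO.Defs

set_option autoImplicit false

namespace Pool.Agent.helper163_WO

open Finset

/- TARGET. Plain proof. Let `idx : (J → Fin n) → Fin K` be injective. `f t = A (t j₀) (idx t)`. Injective: if `t j₀ = t' j₀` use `hAi`;
otherwise choose `c` with `c (t j₀) = idx t`, `c (t' j₀) = idx t'` and use injectivity of `fun i => A i (c i)`. For `e ∈ prodG k G`: `e.card = k` and
`e.image (fun t => t j₀) ∈ G j₀` has `k` elements, so `t ↦ t j₀` is injective on `e`; choose `c` with `c (t j₀) = idx t` for `t ∈ e`; then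
`e.map f = (e.image (· j₀)).image (fun i => A i (c i)) ∈ H`. (If `J → Fin n` is empty then `prodG` is empty as `k ≥ 2`.) -/
theorem contains_of_box {k n N K : ℕ} (hk : 2 ≤ k) {J : Type} [Fintype J] [DecidableEq J]
    (G : J → Finset (Finset (Fin n))) (j₀ : J) (hG : ∀ e ∈ G j₀, e.card = k)
    (H : Finset (Finset (Fin N)))
    (A : Fin n → Fin K → Fin N) (hAi : ∀ i, Function.Injective (A i))
    (hA : ∀ c : Fin n → Fin K, Function.Injective (fun i => A i (c i)) ∧
      ∀ e ∈ G j₀, e.image (fun i => A i (c i)) ∈ H)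
    (hK : Fintype.card (J → Fin n) ≤ K) :
    ∃ f : (J → Fin n) ↪ Fin N, ∀ e ∈ prodG k G, e.map f ∈ H := by
  classical
  have hidx : ∃ idx : (J → Fin n) → Fin K, Function.Injective idx := by
    have h : Fintype.card (J → Fin n) ≤ Fintype.card (Fin K) := by simpa using hK
    obtain ⟨g⟩ := Function.Embedding.nonempty_of_card_le h
    exact ⟨g, g.injective⟩
  obtain ⟨idx, hidx⟩ := hidx
  have hinj : Function.Injective (fun t : J → Fin n => A (t j₀) (idx t)) := by
    intro t t' h
    by_cases h1 : t j₀ = t' j₀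
    · have h2 : A (t j₀) (idx t) = A (t j₀) (idx t') := by
        have h3 : A (t j₀) (idx t) = A (t' j₀) (idx t') := h
        rw [← h1] at h3
        exact h3
      exact hidx (hAi _ h2)
    · exfalso
      let c : Fin n → Fin K := fun i => if i = t j₀ then idx t else idx t'
      have h2 := (hA c).1
      have h3 : (fun i => A i (c i)) (t j₀) = (fun i => A i (c i)) (t' j₀) := by
        simp only [c, if_true, if_neg (Ne.symm h1)]
        exact h
      exact h1 (h2 h3)
  refine ⟨⟨fun t => A (t j₀) (idx t), hinj⟩, fun e he => ?_⟩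
  rw [prodG, mem_filter] at he
  obtain ⟨-, hcard, him⟩ := he
  have h1 := him j₀
  have h2 := hG _ h1
  have h3 : Set.InjOn (fun t : J → Fin n => t j₀) e := by
    rw [← Finset.card_image_iff, h2, hcard]
  -- e is nonempty
  have hne : e.Nonempty := by
    rw [← Finset.card_pos, hcard]
    omega
  obtain ⟨t0, ht0⟩ := hne
  -- choice
  let c : Fin n → Fin K := fun i => if h : ∃ t ∈ e, t j₀ = i then idx h.choose else idx t0
  have hc : ∀ t ∈ e, c (t j₀) = idx t := by
    intro t ht
    have h : ∃ t' ∈ e, t' j₀ = t j₀ := ⟨t, ht, rfl⟩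
    simp only [c]
    rw [dif_pos h]
    congr 1
    exact h3 h.choose_spec.1 ht h.choose_spec.2
  have h4 := (hA c).2 _ h1
  rw [Finset.image_image] at h4
  rw [Finset.map_eq_image]
  convert h4 using 1
  refine Finset.image_congr fun t ht => ?_
  simp only [Function.Embedding.coeFn_mk, Function.comp_apply]
  rw [hc t ht]

end Pool.Agent.helper163_WO
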