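import Pool.Agent.helper163_WO.Defs
import Pool.Agent.helper163_WO.Averaging
import Pool.Agent.helper163_WO.ContBox
import Pool.Agent.H362R2.CM.Box

set_option autoImplicit false

namespace Pool.Agent.helper163_WO

open Finset

/-- the conclusion of Lemma Q for `k` -/
def QProp (k : ℕ) : Prop := ∀ (V : Type) [Fintype V] [DecidableEq V]
    (G : Finset (Finset V)) (w : V → ℝ), (∀ e ∈ G, e.card = k) → (∀ v, 0 ≤ w v) →
    ∑ v, w v = 1 → al k / (k.factorial : ℝ) < lag G w →
    ∃ X : Finset V, Rich k X (G.filter (fun e => e ⊆ X))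

/-- all rich `k`-graphs on subsets of `Fin n` -/
abbrev RI (k n : ℕ) : Type := {p : Finset (Fin n) × Finset (Finset (Fin n)) // Rich k p.1 p.2}

open Classical in
noncomputable instance instFintypeRI (k n : ℕ) : Fintype (RI k n) := Subtype.fintype _

theorem al_lt_one {k : ℕ} (hk : 2 ≤ k) : al k < 1 := by
  have h1 : (2 : ℝ) ≤ k := by exact_mod_cast hk
  rw [al]
  apply pow_lt_one₀
  · rw [sub_nonneg, div_le_one (by linarith)]
    linarith
  · have : 0 < 1 / (k : ℝ) := by positivity
    linarith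
  · omega

theorem al_nonneg {k : ℕ} (hk : 2 ≤ k) : 0 ≤ al k := by
  have h1 : (2 : ℝ) ≤ k := by exact_mod_cast hk
  rw [al]
  apply pow_nonneg
  rw [sub_nonneg, div_le_one (by linarith)]
  linarith

theorem choose_limit (k : ℕ) : Filter.Tendsto (fun n : ℕ => (n.choose k : ℝ) / (n : ℝ) ^ k)
    Filter.atTop (nhds (1 / (k.factorial : ℝ))) := by
  have h := ProbabilityTheory.tendsto_choose_mul_pow_atTop (p := fun n : ℕ => (1 : ℝ) / n)
    (r := 1) k (by
      refine tendsto_const_nhds.congr' ?_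
      filter_upwards [Filter.eventually_gt_atTop 0] with n hn
      have : (n : ℝ) ≠ 0 := by positivity
      field_simp)
  rw [one_pow] at h
  refine h.congr fun n => ?_
  rw [one_div, inv_pow, div_eq_mul_inv]

theorem lag_unif {k n : ℕ} (G : Finset (Finset (Fin n))) (hG : ∀ e ∈ G, e.card = k) :
    lag G (fun _ => (1 : ℝ) / n) = (G.card : ℝ) / (n : ℝ) ^ k := by
  rw [lag]
  have : ∀ e ∈ G, ∏ v ∈ e, (1 : ℝ) / n = 1 / (n : ℝ) ^ k := by
    intro e he
    rw [Finset.prod_const, hG e he, one_div_pow]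
  rw [Finset.sum_congr rfl this, Finset.sum_const, nsmul_eq_mul, mul_one_div]

/-- dense graphs contain rich graphs -/
theorem exists_rich {k n : ℕ} (hn : 0 < n) (hQ : QProp k) (G : Finset (Finset (Fin n)))
    (hG : ∀ e ∈ G, e.card = k)
    (hd : al k / (k.factorial : ℝ) < (G.card : ℝ) / (n : ℝ) ^ k) :
    ∃ p : RI k n, p.1.2 ⊆ G := by
  have hn0 : (n : ℝ) ≠ 0 := by positivity
  obtain ⟨X, hX⟩ := hQ (Fin n) G (fun _ => (1 : ℝ) / n) hG (fun _ => by positivity)
    (by simp [hn0]) (by rw [lag_unif G hG]; exact hd)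
  exact ⟨⟨(X, G.filter (fun e => e ⊆ X)), hX⟩, filter_subset _ _⟩

open Classical in
theorem upper {k : ℕ} (hk : 2 ≤ k) (hQ : QProp k) (ε : ℝ) (hε : 0 < ε) :
    ∃ n : ℕ, Nonempty (RI k n) ∧ ∃ N₀ : ℕ, ∀ N : ℕ, N₀ ≤ N → ∀ H : Finset (Finset (Fin N)),
      (∀ e ∈ H, e.card = k) → (al k + ε) * (N.choose k : ℝ) ≤ (H.card : ℝ) →
      ∃ f : (RI k n → Fin n) ↪ Fin N, ∀ e ∈ prodG k (fun p : RI k n => p.1.2), e.map f ∈ H := by
  have hal1 := al_lt_one hk
  have hal0 := al_nonneg hk
  -- the choice of `n`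
  obtain ⟨n, hn1, hn2, hnk⟩ : ∃ n : ℕ,
      al k / (k.factorial : ℝ) < (n.choose k : ℝ) / (n : ℝ) ^ k ∧
      al k / (k.factorial : ℝ) < (al k + ε / 2) * ((n.choose k : ℝ) / (n : ℝ) ^ k) ∧ k < n := by
    have hlim := choose_limit k
    have hfac : (0 : ℝ) < (k.factorial : ℝ) := by positivity
    have e1 : ∀ᶠ n : ℕ in Filter.atTop,
        al k / (k.factorial : ℝ) < (n.choose k : ℝ) / (n : ℝ) ^ k := by
      refine hlim.eventually (lt_mem_nhds ?_)
      exact div_lt_div_of_pos_right hal1 hfac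
    have e2 : ∀ᶠ n : ℕ in Filter.atTop,
        al k / (k.factorial : ℝ) < (al k + ε / 2) * ((n.choose k : ℝ) / (n : ℝ) ^ k) := by
      refine (hlim.const_mul (al k + ε / 2)).eventually (lt_mem_nhds ?_)
      rw [mul_one_div]
      exact div_lt_div_of_pos_right (by linarith) hfac
    obtain ⟨n, h1, h2, h3⟩ := (e1.and (e2.and (Filter.eventually_gt_atTop k))).exists
    exact ⟨n, h1, h2, h3⟩
  have hn0 : 0 < n := by omega
  have hnR : (0 : ℝ) < n := by exact_mod_cast hn0
  have hne : Nonempty (RI k n) := by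
    obtain ⟨p, _⟩ := exists_rich hn0 hQ (powersetCard k univ)
      (fun e he => (mem_powersetCard.1 he).2) (by
        rw [card_powersetCard, card_univ, Fintype.card_fin]; exact hn1)
    exact ⟨p⟩
  refine ⟨n, hne, ?_⟩
  set R : ℕ := Fintype.card (RI k n) with hR
  have hRpos : (0 : ℝ) < R := by
    have : 0 < R := Fintype.card_pos
    exact_mod_cast this
  set K : ℕ := Fintype.card (RI k n → Fin n) with hK
  set c : ℝ := ε / 2 / R * (1 / (2 ^ n * (n.factorial : ℝ))) with hc
  have hcpos : 0 < c := by rw [hc]; positivity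
  obtain ⟨N₁, hbox⟩ := Pool.Agent.H362R2.CM.box_lemma n K c hcpos
  refine ⟨max N₁ (2 * n), ?_⟩
  intro N hN H hH hd
  have hN1 : N₁ ≤ N := (le_max_left _ _).trans hN
  have hN2 : 2 * n ≤ N := (le_max_right _ _).trans hN
  set 𝒵 := (powersetCard n (univ : Finset (Fin N))).filter (fun Z =>
      (al k + ε / 2) * (n.choose k : ℝ) ≤ ((H.filter (fun e => e ⊆ Z)).card : ℝ)) with h𝒵
  have havg : ε / 2 * (N.choose n : ℝ) ≤ (𝒵.card : ℝ) :=
    averaging hnk.le (by omega) H hH (al k) ε hal0 hε hd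
  -- for each good `Z` a rich graph
  have hgood : ∀ Z ∈ 𝒵, ∃ g : Fin n → Fin N, Function.Injective g ∧ univ.image g = Z ∧
      ∃ p : RI k n, ∀ e ∈ p.1.2, e.image g ∈ H := by
    intro Z hZ
    obtain ⟨hZ1, hZ2⟩ := mem_filter.1 hZ
    have hZc := (mem_powersetCard.1 hZ1).2
    set o := Z.orderEmbOfFin hZc with ho
    have hoi : Function.Injective (o : Fin n → Fin N) := o.injective
    have hoZ : univ.image (o : Fin n → Fin N) = Z := by
      rw [← Finset.coe_inj, Finset.coe_image, Finset.coe_univ, Set.image_univ, ho,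
        Finset.range_orderEmbOfFin]
    refine ⟨o, hoi, hoZ, ?_⟩
    set GZ : Finset (Finset (Fin n)) := univ.filter (fun e => e.image o ∈ H) with hGZ
    have hGZk : ∀ e ∈ GZ, e.card = k := by
      intro e he
      rw [← hH _ (mem_filter.1 he).2, card_image_of_injective _ hoi]
    have hGZc : (H.filter (fun e => e ⊆ Z)).card ≤ GZ.card := by
      refine Finset.card_le_card_of_injOn (fun e => univ.filter (fun i => o i ∈ e)) ?_ ?_
      · intro e he
        obtain ⟨he1, he2⟩ := mem_filter.1 (Finset.mem_coe.1 he)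
        rw [Finset.mem_coe, hGZ, mem_filter]
        refine ⟨mem_univ _, ?_⟩
        have : (univ.filter (fun i => o i ∈ e)).image o = e := by
          ext v
          simp only [mem_image, mem_filter, mem_univ, true_and]
          constructor
          · rintro ⟨i, hi, rfl⟩
            exact hi
          · intro hv
            have := he2 hv
            rw [← hoZ] at this
            obtain ⟨i, _, rfl⟩ := mem_image.1 this
            exact ⟨i, hv, rfl⟩
        rw [this]
        exact he1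
      · intro e he e' he' hee
        obtain ⟨_, he2⟩ := mem_filter.1 (Finset.mem_coe.1 he)
        obtain ⟨_, he2'⟩ := mem_filter.1 (Finset.mem_coe.1 he')
        simp only at hee
        have key : ∀ v ∈ Z, (v ∈ e ↔ v ∈ e') := by
          intro v hv
          rw [← hoZ] at hv
          obtain ⟨i, _, rfl⟩ := mem_image.1 hv
          have := Finset.ext_iff.1 hee i
          simpa using this
        ext v
        constructor
        · intro hv; exact (key v (he2 hv)).1 hv
        · intro hv; exact (key v (he2' hv)).2 hv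
    obtain ⟨p, hp⟩ := exists_rich hn0 hQ GZ hGZk (by
      refine lt_of_lt_of_le hn2 ?_
      rw [← mul_div_assoc]
      refine div_le_div_of_nonneg_right ?_ (by positivity)
      refine hZ2.trans ?_
      exact_mod_cast hGZc)
    exact ⟨p, fun e he => (mem_filter.1 (hp he)).2⟩
  haveI : Nonempty (Fin n → Fin N) := ⟨fun _ => ⟨0, by omega⟩⟩
  choose! g hg1 hg2 p hp using hgood
  -- pigeonhole
  obtain ⟨p₀, _, hp₀⟩ := Finset.exists_le_card_fiber_of_nsmul_le_card_of_maps_to
    (s := 𝒵) (t := (univ : Finset (RI k n))) (f := p) (b := (𝒵.card : ℝ) / R)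
    (fun _ _ => mem_univ _) univ_nonempty (by
      rw [card_univ, ← hR, nsmul_eq_mul]
      field_simp
      rfl)
  set B := (𝒵.filter (fun Z => p Z = p₀)).image g with hB
  have hBcard : B.card = (𝒵.filter (fun Z => p Z = p₀)).card := by
    rw [hB]
    refine Finset.card_image_of_injOn ?_
    intro Z hZ Z' hZ' h
    have h1 := (mem_filter.1 (Finset.mem_coe.1 hZ)).1
    have h2 := (mem_filter.1 (Finset.mem_coe.1 hZ')).1
    rw [← hg2 Z h1, ← hg2 Z' h2, h]
  have hBdense : c * ∏ _i : Fin n, (((univ : Finset (Fin N)).card : ℕ) : ℝ) ≤ B.card := by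
    rw [Finset.prod_const, card_univ, Fintype.card_fin, card_univ, Fintype.card_fin, hBcard]
    refine le_trans ?_ hp₀
    rw [le_div_iff₀ hRpos]
    refine le_trans ?_ havg
    have h1 : (N : ℝ) ^ n / (2 ^ n * (n.factorial : ℝ)) ≤ (N.choose n : ℝ) := by
      refine le_trans ?_ (Nat.pow_le_choose (α := ℝ) n N)
      rw [← div_div, ← div_pow]
      refine div_le_div_of_nonneg_right ?_ (by positivity)
      refine pow_le_pow_left₀ (by positivity) ?_ _
      have h3 : ((N + 1 - n : ℕ) : ℝ) = (N : ℝ) + 1 - n := by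
        rw [Nat.cast_sub (by omega)]; push_cast; ring
      rw [h3]
      have h4 : (2 : ℝ) * n ≤ N := by exact_mod_cast hN2
      linarith
    calc c * (N : ℝ) ^ n * R = ε / 2 * ((N : ℝ) ^ n / (2 ^ n * (n.factorial : ℝ))) := by
          rw [hc]
          field_simp
      _ ≤ ε / 2 * (N.choose n : ℝ) := mul_le_mul_of_nonneg_left h1 (by positivity)
  obtain ⟨A, hA1, hA2⟩ := hbox (Fin N) (fun _ => univ)
    (fun _ => by rw [card_univ, Fintype.card_fin]; exact hN1) B
    (fun f _ => by rw [Fintype.mem_piFinset]; exact fun _ => mem_univ _) hBdense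
  refine contains_of_box hk (fun p : RI k n => p.1.2) p₀ (fun e he => (p₀.2.2.1 e he).1) H A hA1
    ?_ (le_of_eq hK.symm)
  intro cc
  obtain ⟨Z, hZ, hgZ⟩ := mem_image.1 (hA2 cc)
  obtain ⟨hZ1, hZ2⟩ := mem_filter.1 hZ
  rw [← hgZ]
  refine ⟨hg1 Z hZ1, fun e he => hp Z hZ1 e ?_⟩
  rw [hZ2]
  exact he

end Pool.Agent.helper163_WO
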