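import Pool.Agent.helper163_WO.LemQ
import Pool.Agent.helper163_WO.Upper
import Pool.Agent.helper163_WO.NoHom
import Pool.Agent.helper163_WO.ExSparse
import Pool.Agent.helper163_WO.TElag
import Pool.Agent.helper163_WO.LowerPat
import Pool.Agent.helper163_WO.LimEx

/-!
# Turan densities of single `k`-graphs just above `(1 - 1/k)^(k-1)` (helper163)
-/

set_option autoImplicit false

namespace Pool.Agent.helper163_WO

open Finset

/-- products of rich graphs have Turan density `> al k` -/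
theorem lower_bound {k : ℕ} (hk : 3 ≤ k) {J V : Type} [Fintype J] [DecidableEq J] [Nonempty J]
    [Fintype V] [DecidableEq V] (X : J → Finset V) (G : J → Finset (Finset V))
    (hR : ∀ j, Rich k (X j) (G j)) {m : ℕ} (q : (J → V) ≃ Fin m) (d : ℝ)
    (hd : Filter.Tendsto (fun n : ℕ =>
      (exN k m ((prodG k G).image (fun e => e.map q.toEmbedding)) n : ℝ) /
        ((n.choose k : ℕ) : ℝ)) Filter.atTop (nhds d)) :
    al k < d := by
  classical
  obtain ⟨m', E, hkm, hE, hsp, hcard⟩ := exists_sparse hk (Fintype.card (J → V))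
  have hm' : 0 < m' := by omega
  have hTE : ∀ e ∈ TE k E, e.card = k := by
    intro e he
    rcases mem_union.1 he with h | h
    · exact (mem_powersetCard.1 (mem_filter.1 h).1).2
    · obtain ⟨e', he', rfl⟩ := mem_image.1 h
      rw [card_image_of_injective _ (Option.some_injective _), hE e' he']
  have hno : ∀ φ : Fin m → Option (Fin m'),
      ¬ ∀ e ∈ (prodG k G).image (fun e => e.map q.toEmbedding), e.image φ ∈ TE k E := by
    intro φ hφ
    refine no_hom (by omega) X G hR E hE hsp (fun t => φ (q t)) ?_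
    intro e he
    have h1 := hφ _ (mem_image_of_mem _ he)
    rw [Finset.map_eq_image, Finset.image_image] at h1
    exact h1
  have hsum : ∑ v : Option (Fin m'), (if v = none then m' else k - 1) = k * m' := by
    rw [Fintype.sum_option]
    simp only [if_true, reduceCtorEq, if_false, sum_const, card_univ, Fintype.card_fin,
      smul_eq_mul]
    obtain ⟨k', rfl⟩ : ∃ k', k = k' + 1 := ⟨k - 1, by omega⟩
    simp only [Nat.add_sub_cancel]
    ring
  have hlow := lower_of_pattern _ (TE k E) hTE hno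
    (fun v : Option (Fin m') => if v = none then m' else k - 1) (k * m') (by positivity) hsum d hd
  have hlag := TE_lag hk hkm E hE hcard
  rw [div_lt_iff₀ (by positivity)] at hlag
  refine lt_of_lt_of_le hlag ?_
  rw [mul_comm]
  exact hlow

/-- containment in dense hypergraphs bounds the Turan density -/
theorem upper_density {k : ℕ} {W : Type} [Fintype W] [DecidableEq W] (P : Finset (Finset W))
    {m : ℕ} (q : W ≃ Fin m) (c : ℝ) (hc : 0 ≤ c) (N₀ : ℕ)
    (hN₀ : ∀ N : ℕ, N₀ ≤ N → ∀ H : Finset (Finset (Fin N)), (∀ e ∈ H, e.card = k) →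
      c * (N.choose k : ℝ) ≤ (H.card : ℝ) → ∃ f : W ↪ Fin N, ∀ e ∈ P, e.map f ∈ H)
    (d : ℝ) (hd : Filter.Tendsto (fun n : ℕ =>
      (exN k m (P.image (fun e => e.map q.toEmbedding)) n : ℝ) / ((n.choose k : ℕ) : ℝ))
        Filter.atTop (nhds d)) : d ≤ c := by
  refine le_of_tendsto hd ?_
  filter_upwards [Filter.eventually_ge_atTop N₀, Filter.eventually_ge_atTop k] with N hN hNk
  have hpos : (0 : ℝ) < ((N.choose k : ℕ) : ℝ) := by
    exact_mod_cast Nat.choose_pos hNk
  rw [div_le_iff₀ hpos]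
  by_contra hcon
  push Not at hcon
  set L := P.image (fun e => e.map q.toEmbedding) with hL
  have hpos2 : 0 < exN k m L N := by
    have h1 : (0 : ℝ) < (exN k m L N : ℝ) := by
      refine lt_of_le_of_lt ?_ hcon
      positivity
    exact_mod_cast h1
  have hSne : {t : ℕ | ∃ H : Finset (Finset (Fin N)), (∀ A ∈ H, A.card = k) ∧
      H.card = t ∧ ¬ ∃ f : Fin m ↪ Fin N, ∀ e ∈ L, e.map f ∈ H}.Nonempty := by
    by_contra h
    rw [Set.not_nonempty_iff_eq_empty] at h
    rw [exN, h, csSup_empty] at hpos2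
    exact absurd hpos2 (lt_irrefl _)
  obtain ⟨H, hHk, hHc, hHno⟩ := Nat.sSup_mem hSne (limit_exists_bdd k m L N)
  have hHc' : H.card = exN k m L N := hHc
  obtain ⟨f, hf⟩ := hN₀ N hN H hHk (by rw [hHc']; exact hcon.le)
  refine hHno ⟨q.symm.toEmbedding.trans f, ?_⟩
  intro e he
  obtain ⟨e', he', rfl⟩ := mem_image.1 he
  have h1 : (e'.map q.toEmbedding).map (q.symm.toEmbedding.trans f) = e'.map f := by
    rw [Finset.map_map]
    congr 1
    ext t
    simp
  rw [h1]
  exact hf e' he'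

theorem card_of_mem_image {k : ℕ} {W : Type} [Fintype W] [DecidableEq W]
    (P : Finset (Finset W)) (hP : ∀ e ∈ P, e.card = k) {m : ℕ} (q : W ≃ Fin m) :
    ∀ e ∈ P.image (fun e => e.map q.toEmbedding), e.card = k := by
  intro e he
  obtain ⟨e', he', rfl⟩ := mem_image.1 he
  rw [card_map]
  exact hP e' he'

theorem card_of_mem_prodG {k : ℕ} {J V : Type} [Fintype J] [DecidableEq J] [Fintype V]
    [DecidableEq V] (G : J → Finset (Finset V)) : ∀ e ∈ prodG k G, e.card = k := by
  intro e he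
  exact (mem_filter.1 he).2.1

open Classical in
/-- for all `ε > 0` some single `k`-graph has its Turan density in `(al k, al k + ε]` -/
theorem main_seq {k : ℕ} (hk : 3 ≤ k) (hQ : QProp k) (ε : ℝ) (hε : 0 < ε) :
    ∃ (m : ℕ) (L : Finset (Finset (Fin m))) (d : ℝ), (∀ e ∈ L, e.card = k) ∧
      Filter.Tendsto (fun n : ℕ => (exN k m L n : ℝ) / ((n.choose k : ℕ) : ℝ))
        Filter.atTop (nhds d) ∧ al k < d ∧ d ≤ al k + ε := by
  obtain ⟨n, hne, N₀, hN₀⟩ := upper (by omega) hQ ε hε
  obtain ⟨d, hd⟩ := limit_exists k _ ((prodG k (fun p : RI k n => p.1.2)).image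
    (fun e => e.map (Fintype.equivFin (RI k n → Fin n)).toEmbedding))
  have hal0 : 0 ≤ al k := al_nonneg (by omega)
  exact ⟨_, _, d, card_of_mem_image _ (card_of_mem_prodG _) _, hd,
    lower_bound hk (fun p : RI k n => p.1.1) (fun p : RI k n => p.1.2) (fun p => p.2) _ d hd,
    upper_density _ _ (al k + ε) (by linarith) N₀ hN₀ d hd⟩

/-- **The Turan densities of `k`-graphs accumulate from above at `(1 - 1/k)^(k-1)`**, `k` large. -/
theorem main : ∃ k₀ : ℕ, 3 ≤ k₀ ∧ ∀ k : ℕ, k₀ ≤ k → ∀ ε : ℝ, 0 < ε →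
    ∃ (m : ℕ) (L : Finset (Finset (Fin m))) (d : ℝ), (∀ e ∈ L, e.card = k) ∧
      Filter.Tendsto (fun n : ℕ => (exN k m L n : ℝ) / ((n.choose k : ℕ) : ℝ))
        Filter.atTop (nhds d) ∧ al k < d ∧ d ≤ al k + ε := by
  obtain ⟨k₀, hk₀, hQ⟩ := lemmaQ
  exact ⟨k₀, hk₀, fun k hk ε hε => main_seq (hk₀.trans hk) (hQ k hk) ε hε⟩

end Pool.Agent.helper163_WO
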