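import Pool.Agent.helper163_WO.Defs

set_option autoImplicit false

namespace Pool.Agent.helper163_WO

open Finset

theorem card_surj {r : ℕ} {V : Type} [Fintype V] [DecidableEq V] (F : Finset V)
    (hF : F.card = r) :
    ((univ : Finset (Fin r → V)).filter (fun g => univ.image g = F)).card = r.factorial := by
  classical
  have e : Fin r ≃ F := (Finset.equivFinOfCardEq hF).symm
  have h1 : ((univ : Finset (Fin r → V)).filter (fun g => univ.image g = F)) =
      (univ : Finset (Equiv.Perm (Fin r))).image (fun σ => fun i => ((e (σ i) : F) : V)) := by
    ext g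
    simp only [mem_filter, mem_univ, true_and, mem_image]
    constructor
    · intro hg
      have hgF : ∀ i, g i ∈ F := fun i => by rw [← hg]; exact mem_image_of_mem g (mem_univ i)
      have hinj : Function.Injective g := by
        have : ((univ : Finset (Fin r)).image g).card = (univ : Finset (Fin r)).card := by
          rw [hg, hF]; simp
        have h2 := Finset.card_image_iff.1 this
        intro a b hab
        exact h2 (by simp) (by simp) hab
      have hbij : Function.Bijective (fun i => e.symm ⟨g i, hgF i⟩) := by
        rw [Fintype.bijective_iff_injective_and_card]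
        refine ⟨fun a b hab => ?_, rfl⟩
        have h3 := e.symm.injective hab
        exact hinj (Subtype.mk.inj h3)
      refine ⟨Equiv.ofBijective _ hbij, ?_⟩
      funext i
      simp
    · rintro ⟨σ, rfl⟩
      ext v
      simp only [mem_image, mem_univ, true_and]
      constructor
      · rintro ⟨i, rfl⟩
        exact (e (σ i)).2
      · intro hv
        refine ⟨σ.symm (e.symm ⟨v, hv⟩), ?_⟩
        simp
  rw [h1, card_image_of_injective, card_univ, Fintype.card_perm, Fintype.card_fin]
  intro σ τ h
  ext i
  have := congrFun h i
  simp only at this
  have h2 := e.injective (Subtype.ext this)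
  rw [h2]

theorem inj_of_card_image {r : ℕ} {V : Type} [DecidableEq V] (g : Fin r → V)
    (h : (univ.image g).card = r) : Function.Injective g := by
  have : ((univ : Finset (Fin r)).image g).card = (univ : Finset (Fin r)).card := by
    rw [h]; simp
  have h2 := Finset.card_image_iff.1 this
  intro a b hab
  exact h2 (by simp) (by simp) hab

theorem fact_lag {r : ℕ} {V : Type} [Fintype V] [DecidableEq V] (L : Finset (Finset V))
    (hL : ∀ e ∈ L, e.card = r) (a : V → ℝ) :
    (r.factorial : ℝ) * lag L a =
      ∑ g ∈ (univ : Finset (Fin r → V)).filter (fun g => univ.image g ∈ L), ∏ i, a (g i) := by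
  classical
  rw [← Finset.sum_fiberwise_of_maps_to (t := L) (g := fun g : Fin r → V => univ.image g)
    (by intro g hg; exact (mem_filter.1 hg).2)]
  rw [lag, Finset.mul_sum]
  refine Finset.sum_congr rfl fun F hF => ?_
  have h1 : ∀ g ∈ ((univ : Finset (Fin r → V)).filter (fun g => univ.image g ∈ L)).filter
      (fun g => univ.image g = F), ∏ i, a (g i) = ∏ v ∈ F, a v := by
    intro g hg
    rw [mem_filter] at hg
    rw [← hg.2, Finset.prod_image]
    intro x _ y _ hxy
    exact inj_of_card_image g (by rw [hg.2, hL F hF]) hxy
  rw [Finset.sum_congr rfl h1, Finset.sum_const, nsmul_eq_mul]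
  congr 1
  have h2 : ((univ : Finset (Fin r → V)).filter (fun g => univ.image g ∈ L)).filter
      (fun g => univ.image g = F) = (univ : Finset (Fin r → V)).filter
        (fun g => univ.image g = F) := by
    ext g
    simp only [mem_filter, mem_univ, true_and]
    constructor
    · intro h; exact h.2
    · intro h; exact ⟨h ▸ hF, h⟩
  rw [h2, card_surj F (hL F hF)]

end Pool.Agent.helper163_WO
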