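import Pool.Agent.helper163_WO.Defs
import Pool.Agent.helper163_WO.Fact

set_option autoImplicit false

namespace Pool.Agent.helper163_WO

open Finset

/- Plain proof. Take `C ⊆ L` of minimum cardinality with `C.biUnion id = L.biUnion id`. Every `F ∈ C` has a vertex in no other member
of `C` (otherwise delete `F`). If `|C| ≥ r+1` this gives `HasPriv L (r+1)`. So `|C| ≤ r` and `|⋃ C| ≤ r * r`. -/
theorem small_cover {r : ℕ} {V : Type} [Fintype V] [DecidableEq V]
    (L : Finset (Finset V)) (hL : ∀ e ∈ L, e.card = r) (hq : ¬ HasPriv L (r + 1)) :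
    (L.biUnion id).card ≤ r ^ 2 := by
  classical
  obtain ⟨C, hC, hmin⟩ := Finset.exists_min_image
    (L.powerset.filter fun C => C.biUnion id = L.biUnion id) Finset.card
    ⟨L, by simp⟩
  rw [Finset.mem_filter, Finset.mem_powerset] at hC
  obtain ⟨hCL, hCU⟩ := hC
  have hpriv : ∀ F ∈ C, ∃ v ∈ F, ∀ F' ∈ C, F' ≠ F → v ∉ F' := by
    intro F hF
    by_contra h
    push Not at h
    have h1 : (C.erase F).biUnion id = L.biUnion id := by
      rw [← hCU]
      ext v
      simp only [Finset.mem_biUnion, id]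
      constructor
      · rintro ⟨e, he, hv⟩
        exact ⟨e, Finset.mem_of_mem_erase he, hv⟩
      · rintro ⟨e, he, hv⟩
        by_cases h2 : e = F
        · subst h2
          obtain ⟨F', h3, h4, h5⟩ := h v hv
          exact ⟨F', Finset.mem_erase.2 ⟨h4, h3⟩, h5⟩
        · exact ⟨e, Finset.mem_erase.2 ⟨h2, he⟩, hv⟩
    have h2 := hmin (C.erase F) (Finset.mem_filter.2 ⟨Finset.mem_powerset.2
      ((Finset.erase_subset _ _).trans hCL), h1⟩)
    have h3 := Finset.card_erase_lt_of_mem hF
    omega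
  have hcard : C.card ≤ r := by
    by_contra h
    apply hq
    have h1 : r + 1 ≤ C.card := by omega
    choose p hp1 hp2 using hpriv
    refine ⟨fun i => (C.equivFin.symm (Fin.castLE h1 i)).1,
      fun i => p (C.equivFin.symm (Fin.castLE h1 i)).1 (Subtype.prop _),
      fun i => hCL (Subtype.prop _),
      fun i => hp1 _ (Subtype.prop _), fun i j hij => hp2 _ (Subtype.prop _) _ (Subtype.prop _) ?_⟩
    intro h2
    apply hij
    have h3 := C.equivFin.symm.injective (Subtype.ext h2)
    exact (Fin.castLE_injective h1 h3).symm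
  rw [← hCU]
  have h1 := Finset.card_biUnion_le_card_mul C id r fun e he => (hL e (hCL he)).le
  calc (C.biUnion id).card ≤ C.card * r := h1
    _ ≤ r * r := Nat.mul_le_mul_right _ hcard
    _ = r ^ 2 := by ring

/-- auxiliary sum -/
theorem elem_bound_aux {s : ℕ} {V : Type} [Fintype V] [DecidableEq V] (b : V → ℝ) :
    ∑ g : Fin (s + 2) → V, (if g 0 = g 1 then ∏ i, b (g i) else 0) =
      (∑ v, b v) ^ s * ∑ v, b v ^ 2 := by
  rw [← (Fin.consEquiv (fun _ : Fin (s + 2) => V)).sum_comp, Fintype.sum_prod_type,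
    Fintype.sum_pow, Finset.mul_sum]
  refine Finset.sum_congr rfl fun x _ => ?_
  rw [← (Fin.consEquiv (fun _ : Fin (s + 1) => V)).sum_comp, Fintype.sum_prod_type]
  have h1 : ∀ (y : V) (h : Fin s → V),
      (if (Fin.consEquiv (fun _ : Fin (s + 2) => V)) (x, (Fin.consEquiv
          (fun _ : Fin (s + 1) => V)) (y, h)) 0 = (Fin.consEquiv (fun _ : Fin (s + 2) => V))
          (x, (Fin.consEquiv (fun _ : Fin (s + 1) => V)) (y, h)) 1 then
        ∏ i, b ((Fin.consEquiv (fun _ : Fin (s + 2) => V)) (x, (Fin.consEquiv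
          (fun _ : Fin (s + 1) => V)) (y, h)) i) else 0) =
      if x = y then b x * (b y * ∏ i, b (h i)) else 0 := by
    intro y h
    have e0 : (Fin.consEquiv (fun _ : Fin (s + 2) => V)) (x, (Fin.consEquiv
          (fun _ : Fin (s + 1) => V)) (y, h)) = Fin.cons x (Fin.cons y h) := rfl
    rw [e0, Fin.prod_univ_succ, Fin.prod_univ_succ]
    rfl
  simp only [h1]
  rw [Finset.sum_comm, Finset.sum_mul]
  refine Finset.sum_congr rfl fun h _ => ?_
  rw [Finset.sum_ite_eq]
  simp
  ring

/- Plain proof. WLOG `a = 0` off `U` or restrict to functions with values in `U`. `(∑_U a)^r = ∑ over g : Fin r → V with values in U of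
∏ a (g i)`. By `fact_lag` the left side is the sum over injective such `g`. The `g` with `g 0 = g 1` are not injective and
their sum is `(∑_U a^2) * (∑_U a)^(r-2)`; all terms are `≥ 0`. -/
theorem elem_bound {r : ℕ} (hr : 2 ≤ r) {V : Type} [Fintype V] [DecidableEq V]
    (U : Finset V) (a : V → ℝ) (ha : ∀ v, 0 ≤ a v) :
    (r.factorial : ℝ) * lag (powersetCard r U) a ≤
      (∑ v ∈ U, a v) ^ r - (∑ v ∈ U, a v) ^ (r - 2) * ∑ v ∈ U, a v ^ 2 := by
  obtain ⟨s, rfl⟩ : ∃ s, r = s + 2 := ⟨r - 2, by omega⟩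
  rw [fact_lag _ fun e he => (Finset.mem_powersetCard.1 he).2, Nat.add_sub_cancel]
  set b : V → ℝ := fun v => if v ∈ U then a v else 0 with hb
  have hb0 : ∀ v, 0 ≤ b v := by
    intro v
    simp only [hb]
    split_ifs
    · exact ha v
    · exact le_rfl
  have e1 : ∑ v ∈ U, a v = ∑ v, b v := by
    simp [hb]
  have e2 : ∑ v ∈ U, a v ^ 2 = ∑ v, b v ^ 2 := by
    simp [hb, ite_pow]
  rw [e1, e2, ← elem_bound_aux, Fintype.sum_pow, ← Finset.sum_sub_distrib]
  rw [Finset.sum_filter]
  refine Finset.sum_le_sum fun g _ => ?_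
  have hp : 0 ≤ ∏ i, b (g i) := Finset.prod_nonneg fun i _ => hb0 _
  split_ifs with h1 h2 h2
  · exfalso
    have h3 := (Finset.mem_powersetCard.1 h1).2
    have h4 : Function.Injective g := by
      have h5 : (univ.image g).card = (univ : Finset (Fin (s + 2))).card := by
        rw [h3]
        simp
      have h6 := Finset.card_image_iff.1 h5
      intro x y hxy
      exact h6 (by simp) (by simp) hxy
    have := h4 h2
    simp at this
  · rw [sub_zero]
    refine le_of_eq (Finset.prod_congr rfl fun i _ => ?_)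
    have h3 : g i ∈ U := (Finset.mem_powersetCard.1 h1).1
      (Finset.mem_image_of_mem g (Finset.mem_univ i))
    simp only [hb, h3, if_true]
  · simp
  · rw [sub_zero]; exact hp

end Pool.Agent.helper163_WO
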