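import Mathlib

/-!
# Hypergraph Turan densities are not well-ordered: definitions (helper163)

`HasPriv L q`: `L` contains `q` edges each having a private vertex. `Rich k X G`: `G` is a pair
covering `k`-graph on `X` such that for every vertex `ξ` there is a nonempty `S` avoiding `ξ` such
that for all `x ∈ S` the link of `x` in `G[S]` has `k` edges with private vertices. `prodG`: the
product of `k`-graphs. `TE k E`: all `k`-sets containing the extra vertex `none`, and the edges of
`E`.
-/

set_option autoImplicit false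

namespace Pool.Agent.helper163_WO

open Finset

/-- `L` contains `q` edges `v i` with private vertices `p i`. -/
def HasPriv {V : Type} (L : Finset (Finset V)) (q : ℕ) : Prop :=
  ∃ (v : Fin q → Finset V) (p : Fin q → V), (∀ i, v i ∈ L) ∧ (∀ i, p i ∈ v i) ∧
    ∀ i j, i ≠ j → p i ∉ v j

/-- the link of `x` in `G[S]` -/
def link {V : Type} [DecidableEq V] (G : Finset (Finset V)) (S : Finset V) (x : V) :
    Finset (Finset V) :=
  (G.filter (fun e => x ∈ e ∧ e ⊆ S)).image (fun e => e.erase x)

/-- rich `k`-graphs `G` on the vertex set `X` -/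
def Rich (k : ℕ) {V : Type} [DecidableEq V] (X : Finset V) (G : Finset (Finset V)) : Prop :=
  X.Nonempty ∧ (∀ e ∈ G, e.card = k ∧ e ⊆ X) ∧
    (∀ x ∈ X, ∀ y ∈ X, x ≠ y → ∃ e ∈ G, x ∈ e ∧ y ∈ e) ∧
    ∀ ξ ∈ X, ∃ S : Finset V, S ⊆ X.erase ξ ∧ S.Nonempty ∧ ∀ x ∈ S, HasPriv (link G S x) k

/-- the Lagrange polynomial of `G` -/
noncomputable def lag {V : Type} (G : Finset (Finset V)) (w : V → ℝ) : ℝ :=
  ∑ e ∈ G, ∏ v ∈ e, w v

/-- the product of the `k`-graphs `G j` -/
def prodG (k : ℕ) {J V : Type} [Fintype J] [DecidableEq J] [Fintype V] [DecidableEq V]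
    (G : J → Finset (Finset V)) : Finset (Finset (J → V)) :=
  univ.filter (fun e => e.card = k ∧ ∀ j, e.image (fun t => t j) ∈ G j)

/-- all `k`-sets containing `none`, and the edges of `E` -/
def TE (k : ℕ) {A : Type} [Fintype A] [DecidableEq A] (E : Finset (Finset A)) :
    Finset (Finset (Option A)) :=
  (powersetCard k univ).filter (fun e => none ∈ e) ∪ E.image (fun e => e.image some)

/-- small sets span few edges -/
def Sparse {A : Type} [DecidableEq A] (N : ℕ) (E : Finset (Finset A)) : Prop :=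
  ∀ S : Finset A, S.Nonempty → S.card ≤ N → (E.filter (fun e => e ⊆ S)).card < S.card

/-- the limit density -/
noncomputable def al (k : ℕ) : ℝ := (1 - 1 / (k : ℝ)) ^ (k - 1)

/-- the extremal number of the frozen statement -/
noncomputable def exN (k m : ℕ) (L : Finset (Finset (Fin m))) (n : ℕ) : ℕ :=
  sSup {t : ℕ | ∃ H : Finset (Finset (Fin n)), (∀ A ∈ H, A.card = k) ∧ H.card = t ∧
    ¬ ∃ f : Fin m ↪ Fin n, ∀ e ∈ L, e.map f ∈ H}

end Pool.Agent.helper163_WO
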