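import Pool.Agent.helper163_WO.Defs

set_option autoImplicit false

namespace Pool.Agent.helper163_WO

open Finset

open Filter Topology in
theorem numeric_aux (r : ℕ) (hr : 1 ≤ r) : (r.factorial : ℝ) / (r : ℝ) ^ r * Real.exp ((r : ℝ) * (1 - 1 / 160)) ≤
    Real.exp 1 * r * (Real.exp (-(1/160))) ^ r := by
  obtain ⟨n, rfl⟩ : ∃ n, r = n + 1 := ⟨r - 1, by omega⟩
  have h := Stirling.stirlingSeq'_antitone (Nat.zero_le n)
  simp only [Function.comp_apply, Nat.succ_eq_add_one, zero_add] at h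
  rw [Stirling.stirlingSeq_one] at h
  unfold Stirling.stirlingSeq at h
  set r : ℕ := n + 1 with hrdef
  have hr0 : (0 : ℝ) < r := by positivity
  have h2 : (0:ℝ) < √(2 * (r:ℝ)) * ((r:ℝ) / Real.exp 1) ^ r := by positivity
  rw [div_le_iff₀ h2] at h
  have h3 : √(2 * (r:ℝ)) = √2 * √(r:ℝ) := Real.sqrt_mul (by norm_num) _
  rw [h3] at h
  have h4 : Real.exp 1 / √2 * (√2 * √(r:ℝ) * ((r:ℝ) / Real.exp 1) ^ r) = Real.exp 1 * √(r:ℝ) * ((r:ℝ) / Real.exp 1) ^ r := by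
    have : √(2:ℝ) ≠ 0 := by positivity
    field_simp
  rw [h4] at h
  have h5 : √(r:ℝ) ≤ r := by
    rw [Real.sqrt_le_left (by positivity)]
    have : (1:ℝ) ≤ r := by exact_mod_cast hr
    nlinarith
  have h6 : (r.factorial : ℝ) ≤ Real.exp 1 * r * ((r:ℝ) / Real.exp 1) ^ r := by
    refine h.trans ?_
    gcongr
  calc (r.factorial : ℝ) / (r : ℝ) ^ r * Real.exp ((r : ℝ) * (1 - 1 / 160))
      ≤ (Real.exp 1 * r * ((r:ℝ) / Real.exp 1) ^ r) / (r : ℝ) ^ r * Real.exp ((r : ℝ) * (1 - 1 / 160)) := by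
        gcongr
    _ = Real.exp 1 * r * (Real.exp (-(1/160))) ^ r := by
        rw [div_pow, ← Real.exp_nat_mul, ← Real.exp_nat_mul]
        have : (r:ℝ)^r ≠ 0 := by positivity
        have h7 : Real.exp ((r : ℝ) * (1 - 1 / 160)) = Real.exp ((r:ℝ) * 1) * Real.exp ((r:ℝ) * (-(1/160))) := by
          rw [← Real.exp_add]; ring_nf
        rw [h7]
        field_simp

/- TARGET. Plain proof. `r! * e^r / r^(r+1)` is nonincreasing in `r ≥ 1` (ratio of consecutive terms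
`e / (1+1/r)^(r+1) ≤ 1` because `log (1+1/r) = -log (1 - 1/(r+1)) ≥ 1/(r+1)`), so `r! ≤ e * r * (r/e)^r` and the first summand is at most
`e * r * exp (-r/160)`. So the left side times `10 (r+1) r^2` tends to `0` (exponentials beat polynomials; Mathlib
`Real.tendsto_pow_mul_exp_neg_atTop_nhds_zero`, `tendsto_pow_const_mul_const_pow_of_abs_lt_one`). -/
open Filter Topology in
theorem numeric : ∃ r0 : ℕ, ∀ r : ℕ, r0 ≤ r →
    (r.factorial : ℝ) / (r : ℝ) ^ r * Real.exp ((r : ℝ) * (1 - 1 / 160)) + (1 / 3) ^ r ≤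
      1 / (10 * ((r : ℝ) + 1) * (r : ℝ) ^ 2) := by
  have hq : |Real.exp (-(1/160))| < 1 := by
    rw [abs_of_pos (Real.exp_pos _), Real.exp_lt_one_iff]; norm_num
  have hq3 : |(1/3:ℝ)| < 1 := by rw [abs_of_pos (by norm_num)]; norm_num
  have t4 := tendsto_pow_const_mul_const_pow_of_abs_lt_one 4 hq
  have t3 := tendsto_pow_const_mul_const_pow_of_abs_lt_one 3 hq
  have s3 := tendsto_pow_const_mul_const_pow_of_abs_lt_one 3 hq3
  have s2 := tendsto_pow_const_mul_const_pow_of_abs_lt_one 2 hq3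
  have T : Tendsto (fun r : ℕ => 10 * Real.exp 1 * ((r:ℝ)^4 * (Real.exp (-(1/160)))^r + (r:ℝ)^3 * (Real.exp (-(1/160)))^r)
      + 10 * ((r:ℝ)^3 * (1/3:ℝ)^r + (r:ℝ)^2 * (1/3:ℝ)^r)) atTop (𝓝 (10 * Real.exp 1 * (0 + 0) + 10 * (0 + 0))) :=
    ((t4.add t3).const_mul _).add ((s3.add s2).const_mul _)
  have T2 : ∀ᶠ r : ℕ in atTop, 10 * Real.exp 1 * ((r:ℝ)^4 * (Real.exp (-(1/160)))^r + (r:ℝ)^3 * (Real.exp (-(1/160)))^r)
      + 10 * ((r:ℝ)^3 * (1/3:ℝ)^r + (r:ℝ)^2 * (1/3:ℝ)^r) < 1 :=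
    T.eventually_lt_const (by norm_num)
  obtain ⟨r0, h0⟩ := eventually_atTop.1 T2
  refine ⟨max r0 1, fun r hr => ?_⟩
  have hr1 : 1 ≤ r := le_trans (le_max_right _ _) hr
  have hb := h0 r (le_trans (le_max_left _ _) hr)
  have ha := numeric_aux r hr1
  have hr0 : (0 : ℝ) < r := by exact_mod_cast hr1
  rw [le_div_iff₀ (by positivity)]
  have : ((r.factorial : ℝ) / (r : ℝ) ^ r * Real.exp ((r : ℝ) * (1 - 1 / 160)) + (1 / 3) ^ r) * (10 * ((r : ℝ) + 1) * (r : ℝ) ^ 2)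
      ≤ (Real.exp 1 * r * (Real.exp (-(1/160))) ^ r + (1 / 3) ^ r) * (10 * ((r : ℝ) + 1) * (r : ℝ) ^ 2) := by
    gcongr
  refine this.trans (le_trans (le_of_eq ?_) hb.le)
  ring

end Pool.Agent.helper163_WO

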