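import Pool.Agent.helper163_WO.Defs

set_option autoImplicit false

namespace Pool.Agent.helper163_WO

open Finset

/-- mass of the sets containing `F` and avoiding `T` -/
theorem star_ineq_mass {V : Type} [Fintype V] [DecidableEq V] (θ : V → ℝ) (F T : Finset V)
    (h : Disjoint F T) :
    ∑ U : Finset V, (if F ⊆ U ∧ Disjoint T U then
      (∏ v ∈ U, θ v) * ∏ v ∈ univ \ U, (1 - θ v) else 0) =
      (∏ v ∈ F, θ v) * ∏ u ∈ T, (1 - θ u) := by
  have h1 := Finset.prod_add (fun v => if v ∈ T then 0 else θ v)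
    (fun v => if v ∈ F then 0 else 1 - θ v) (univ : Finset V)
  rw [Finset.powerset_univ] at h1
  have h2 : ∀ U : Finset V, (∏ i ∈ U, (if i ∈ T then 0 else θ i)) *
      ∏ i ∈ univ \ U, (if i ∈ F then 0 else 1 - θ i) =
      if F ⊆ U ∧ Disjoint T U then (∏ v ∈ U, θ v) * ∏ v ∈ univ \ U, (1 - θ v) else 0 := by
    intro U
    split_ifs with hU
    · congr 1
      · refine Finset.prod_congr rfl fun i hi => ?_
        rw [if_neg]
        exact fun hiT => (Finset.disjoint_left.1 hU.2) hiT hi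
      · refine Finset.prod_congr rfl fun i hi => ?_
        rw [if_neg]
        exact fun hiF => (Finset.mem_sdiff.1 hi).2 (hU.1 hiF)
    · by_cases hF : F ⊆ U
      · have hT : ¬ Disjoint T U := fun hT => hU ⟨hF, hT⟩
        rw [Finset.not_disjoint_iff] at hT
        obtain ⟨x, hxT, hxU⟩ := hT
        rw [Finset.prod_eq_zero hxU (by rw [if_pos hxT]), zero_mul]
      · rw [Finset.not_subset] at hF
        obtain ⟨x, hxF, hxU⟩ := hF
        rw [Finset.prod_eq_zero (i := x) (s := univ \ U)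
          (Finset.mem_sdiff.2 ⟨Finset.mem_univ _, hxU⟩) (by rw [if_pos hxF]), mul_zero]
  rw [← Finset.sum_congr rfl fun U _ => h2 U, ← h1]
  have h3 : ∀ i : V, ((if i ∈ T then 0 else θ i) + (if i ∈ F then 0 else 1 - θ i)) =
      (if i ∈ F then θ i else 1) * (if i ∈ T then 1 - θ i else 1) := by
    intro i
    by_cases hF : i ∈ F
    · have hT : i ∉ T := Finset.disjoint_left.1 h hF
      simp [hF, hT]
    · by_cases hT : i ∈ T
      · simp [hF, hT]
      · simp [hF, hT]
  rw [Finset.prod_congr rfl fun i _ => h3 i, Finset.prod_mul_distrib, Finset.prod_ite_mem,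
    Finset.prod_ite_mem, Finset.univ_inter, Finset.univ_inter]

/-- the set pair inequality for product measures -/
theorem star_ineq_sum {V : Type} [Fintype V] [DecidableEq V] (L : Finset (Finset V))
    (T : Finset V → Finset V) (θ : V → ℝ) (h0 : ∀ v, 0 ≤ θ v) (h1 : ∀ v, θ v ≤ 1)
    (hd : ∀ F ∈ L, Disjoint F (T F))
    (hT : ∀ F ∈ L, ∀ F' ∈ L, F' ≠ F → ¬ Disjoint (T F) F') :
    ∑ F ∈ L, (∏ v ∈ F, θ v) * ∏ u ∈ T F, (1 - θ u) ≤ 1 := by
  have hP : ∀ U : Finset V, 0 ≤ (∏ v ∈ U, θ v) * ∏ v ∈ univ \ U, (1 - θ v) := by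
    intro U
    refine mul_nonneg (Finset.prod_nonneg fun v _ => h0 v) (Finset.prod_nonneg fun v _ => ?_)
    linarith [h1 v]
  have htot : ∑ U : Finset V, (∏ v ∈ U, θ v) * ∏ v ∈ univ \ U, (1 - θ v) = 1 := by
    have h2 := Finset.prod_add θ (fun v => 1 - θ v) (univ : Finset V)
    rw [Finset.powerset_univ] at h2
    rw [← h2]
    simp
  refine le_trans ?_ (le_of_eq htot)
  rw [← Finset.sum_congr rfl fun F hF => star_ineq_mass θ F (T F) (hd F hF),
    Finset.sum_comm]
  refine Finset.sum_le_sum fun U _ => ?_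
  by_cases hex : ∃ F ∈ L, F ⊆ U ∧ Disjoint (T F) U
  · obtain ⟨F, hF, hFU⟩ := hex
    rw [Finset.sum_eq_single_of_mem F hF]
    · rw [if_pos hFU]
    · intro F' hF' hne
      rw [if_neg]
      rintro ⟨h2, h3⟩
      apply hT F hF F' hF' hne
      exact hFU.2.mono_right h2
  · rw [Finset.sum_eq_zero]
    · exact hP U
    · intro F hF
      rw [if_neg]
      exact fun h2 => hex ⟨F, hF, h2⟩

theorem star_ineq_exp {x : ℝ} (hx : 0 ≤ x) : x * Real.exp (-(x / 2)) ≤ 1 - Real.exp (-x) := by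
  have h1 : x / 2 ≤ Real.sinh (x / 2) := Real.self_le_sinh_iff.2 (by linarith)
  rw [Real.sinh_eq] at h1
  have h2 : 0 < Real.exp (-(x / 2)) := Real.exp_pos _
  have h3 : Real.exp (x / 2) * Real.exp (-(x / 2)) = 1 := by
    rw [← Real.exp_add]
    simp
  have h4 : Real.exp (-(x / 2)) * Real.exp (-(x / 2)) = Real.exp (-x) := by
    rw [← Real.exp_add]
    congr 1
    ring
  nlinarith

/-- minimal transversals -/
theorem star_ineq_trans {r : ℕ} {V : Type} [Fintype V] [DecidableEq V]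
    (L : Finset (Finset V)) (hL : ∀ e ∈ L, e.card = r) (hq : ¬ HasPriv L (r + 1))
    (F : Finset V) (hF : F ∈ L) :
    ∃ T : Finset V, Disjoint F T ∧ T.card ≤ r ∧ ∀ F' ∈ L, F' ≠ F → ¬ Disjoint T F' := by
  classical
  have hne : ((univ : Finset (Finset V)).filter
      (fun T => ∀ F' ∈ L, F' ≠ F → (T ∩ (F' \ F)).Nonempty)).Nonempty := by
    refine ⟨univ, ?_⟩
    rw [Finset.mem_filter]
    refine ⟨Finset.mem_univ _, fun F' hF' hne => ?_⟩
    rw [Finset.univ_inter, Finset.sdiff_nonempty]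
    intro hsub
    exact hne (Finset.eq_of_subset_of_card_le hsub (by rw [hL F hF, hL F' hF']))
  obtain ⟨T, hT, hmin⟩ := Finset.exists_min_image _ Finset.card hne
  rw [Finset.mem_filter] at hT
  have hT2 := hT.2
  have hpriv : ∀ x ∈ T, ∃ F' ∈ L, x ∈ F' ∧ x ∉ F ∧ ∀ y ∈ T, y ≠ x → y ∈ F' → y ∈ F := by
    intro x hx
    by_contra hcon
    push Not at hcon
    have h1 : T.erase x ∈ (univ : Finset (Finset V)).filter
      (fun T => ∀ F' ∈ L, F' ≠ F → (T ∩ (F' \ F)).Nonempty) := by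
      rw [Finset.mem_filter]
      refine ⟨Finset.mem_univ _, fun F' hF' hne' => ?_⟩
      by_contra h2
      rw [Finset.not_nonempty_iff_eq_empty] at h2
      have h3 : ∀ y ∈ T, y ≠ x → y ∈ F' → y ∈ F := by
        intro y hy hyx hyF'
        by_contra hyF
        have h4 : y ∈ T.erase x ∩ (F' \ F) := by
          rw [Finset.mem_inter, Finset.mem_erase, Finset.mem_sdiff]
          exact ⟨⟨hyx, hy⟩, hyF', hyF⟩
        rw [h2] at h4
        exact absurd h4 (Finset.notMem_empty _)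
      obtain ⟨z, hz⟩ := hT2 F' hF' hne'
      rw [Finset.mem_inter, Finset.mem_sdiff] at hz
      by_cases hzx : z = x
      · subst hzx
        obtain ⟨y, hy, hyx, hyF', hyF⟩ := hcon F' hF' hz.2.1 hz.2.2
        exact hyF (h3 y hy hyx hyF')
      · exact hz.2.2 (h3 z hz.1 hzx hz.2.1)
    have h5 := hmin _ h1
    have h6 := Finset.card_erase_lt_of_mem hx
    omega
  have hdis : Disjoint F T := by
    rw [Finset.disjoint_right]
    intro x hx
    obtain ⟨-, -, -, h, -⟩ := hpriv x hx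
    exact h
  refine ⟨T, hdis, ?_, ?_⟩
  · by_contra hcard
    push Not at hcard
    apply hq
    have hc : r + 1 ≤ T.card := hcard
    obtain ⟨T', hT', hT'c⟩ := Finset.exists_subset_card_eq hc
    choose! f hf1 hf2 hf3 hf4 using hpriv
    let e : Fin (r + 1) ≃ T' := (Fintype.equivFinOfCardEq (by simpa using hT'c)).symm
    refine ⟨fun i => f (e i), fun i => (e i : V), ?_, ?_, ?_⟩
    · intro i
      exact hf1 _ (hT' (e i).2)
    · intro i
      exact hf2 _ (hT' (e i).2)
    · intro i j hij hmem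
      have h7 : (e i : V) ≠ (e j : V) := by
        intro h8
        exact hij (e.injective (Subtype.ext h8))
      exact hf3 _ (hT' (e i).2) (hf4 _ (hT' (e j).2) _ (hT' (e i).2) h7 hmem)
  · intro F' hF' hne' hdis'
    obtain ⟨z, hz⟩ := hT2 F' hF' hne'
    rw [Finset.mem_inter, Finset.mem_sdiff] at hz
    exact Finset.disjoint_left.1 hdis' hz.1 hz.2.1

theorem star_ineq {r : ℕ} (hr : 1 ≤ r) {V : Type} [Fintype V] [DecidableEq V]
    (L : Finset (Finset V)) (a : V → ℝ) (ha : ∀ v, 0 ≤ a v) (hL : ∀ e ∈ L, e.card = r)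
    (hq : ¬ HasPriv L (r + 1)) :
    ∃ T : Finset V → Finset V, (∀ F ∈ L, Disjoint F (T F) ∧ (T F).card ≤ r) ∧
      (r : ℝ) ^ r * ∑ F ∈ L, (∏ v ∈ F, a v) *
        Real.exp (-((r : ℝ) * ((∑ v ∈ F, a v) / 2 + ∑ v ∈ T F, a v))) ≤ 1 := by
  classical
  have hex := fun F (hF : F ∈ L) => star_ineq_trans L hL hq F hF
  choose! T hT1 hT2 hT3 using hex
  refine ⟨T, fun F hF => ⟨hT1 F hF, hT2 F hF⟩, ?_⟩
  set θ : V → ℝ := fun v => 1 - Real.exp (-((r : ℝ) * a v)) with hθ
  have hra : ∀ v, 0 ≤ (r : ℝ) * a v := fun v => mul_nonneg (Nat.cast_nonneg _) (ha v)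
  have h0 : ∀ v, 0 ≤ θ v := by
    intro v
    have : Real.exp (-((r : ℝ) * a v)) ≤ 1 := Real.exp_le_one_iff.2 (by linarith [hra v])
    rw [hθ]
    simp only
    linarith
  have h1 : ∀ v, θ v ≤ 1 := by
    intro v
    have : 0 < Real.exp (-((r : ℝ) * a v)) := Real.exp_pos _
    rw [hθ]
    simp only
    linarith
  refine le_trans ?_ (star_ineq_sum L T θ h0 h1 hT1 hT3)
  rw [Finset.mul_sum]
  refine Finset.sum_le_sum fun F hF => ?_
  have e1 : (r : ℝ) ^ r * ((∏ v ∈ F, a v) *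
        Real.exp (-((r : ℝ) * ((∑ v ∈ F, a v) / 2 + ∑ v ∈ T F, a v)))) =
      (∏ v ∈ F, ((r : ℝ) * a v) * Real.exp (-(((r : ℝ) * a v) / 2))) *
        ∏ u ∈ T F, (1 - θ u) := by
    rw [Finset.prod_mul_distrib, Finset.prod_mul_distrib, Finset.prod_const, hL F hF,
      ← Real.exp_sum]
    have e2 : ∏ u ∈ T F, (1 - θ u) = Real.exp (∑ u ∈ T F, -((r : ℝ) * a u)) := by
      rw [Real.exp_sum]
      refine Finset.prod_congr rfl fun u _ => ?_
      rw [hθ]
      simp only
      ring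
    rw [e2, mul_assoc ((r : ℝ) ^ r * _), ← Real.exp_add, mul_assoc]
    congr 3
    rw [Finset.sum_neg_distrib, Finset.sum_neg_distrib, ← Finset.sum_div, ← Finset.mul_sum,
      ← Finset.mul_sum]
    ring
  rw [e1]
  refine mul_le_mul_of_nonneg_right ?_ (Finset.prod_nonneg fun u _ => by linarith [h1 u])
  refine Finset.prod_le_prod (fun v _ => mul_nonneg (hra v) (Real.exp_pos _).le) fun v _ => ?_
  exact star_ineq_exp (hra v)

end Pool.Agent.helper163_WO
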