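import Pool.Agent.helper163_WO.Defs
import Pool.Agent.helper163_WO.Fact

set_option autoImplicit false

namespace Pool.Agent.helper163_WO

open Finset

/- TARGET. Plain proof. `r ≥ 1` (for `r = 0`, `T` is empty and `hT` is false). Call `v` light if `a v < 1/(8 r)`.
The light vertices have total weight `≤ |T| * 1/(8r) + (1 - a(T)) ≤ 1/8 + 1/80 = 11/80`. Put `b v = 1024 * a v` if `v` is light and
`b v = a v` otherwise. `∑ v, b v = 1 + 1023 * (light weight) ≤ 1 + 1023 * 11/80 < 142`. For `F ∈ L` with `h` heavy elements: `h/(8r) ≤ a(F) < 1/80`,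
so `10 h < r`, so the number `l = r - h` of light elements satisfies `9 r ≤ 10 l`, and `∏ v ∈ F, b v = 1024^l ∏ a v = 2^(10 l) ∏ a v
≥ 2^(9r) ∏ a v = 512^r ∏ a v`. By `fact_lag`, `r! * lag L b ≤ ∑ over all g : Fin r → V of ∏ b (g i) = (∑ b)^r ≤ 142^r`
(Mathlib: `Finset.sum_pow'`, `Fintype.sum_pow` or `Finset.prod_univ_sum`). So `r! * lag L a ≤ (142/512)^r ≤ (1/3)^r`. -/
theorem type2 {r : ℕ} {V : Type} [Fintype V] [DecidableEq V]
    (L : Finset (Finset V)) (a : V → ℝ) (ha : ∀ v, 0 ≤ a v) (hs : ∑ v, a v = 1)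
    (hL : ∀ e ∈ L, e.card = r) (T : Finset V) (hTc : T.card ≤ r)
    (hT : 1 - 1 / 80 < ∑ v ∈ T, a v) (hF : ∀ F ∈ L, ∑ v ∈ F, a v < 1 / 80) :
    (r.factorial : ℝ) * lag L a ≤ (1 / 3) ^ r := by
  classical
  rcases Nat.eq_zero_or_pos r with hr0 | hr
  · subst hr0
    have hT0 : T = ∅ := Finset.card_eq_zero.mp (Nat.le_zero.mp hTc)
    rw [hT0, Finset.sum_empty] at hT
    norm_num at hT
  have hrR : (0 : ℝ) < (r : ℝ) := Nat.cast_pos.mpr hr
  obtain ⟨δ, hδ⟩ : ∃ δ : ℝ, δ = 1 / (8 * (r : ℝ)) := ⟨_, rfl⟩
  have hδ0 : 0 < δ := by rw [hδ]; positivity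
  have hδr : (r : ℝ) * δ = 1 / 8 := by rw [hδ]; field_simp
  -- light weight
  have hlight : ∑ v ∈ univ.filter (fun v => a v < δ), a v ≤ 11 / 80 := by
    have h1 : ∑ v ∈ univ.filter (fun v => a v < δ), a v =
        ∑ v ∈ (univ.filter (fun v => a v < δ)).filter (fun v => v ∈ T), a v +
        ∑ v ∈ (univ.filter (fun v => a v < δ)).filter (fun v => ¬ v ∈ T), a v :=
      (Finset.sum_filter_add_sum_filter_not _ _ _).symm
    have h2 : ∑ v ∈ (univ.filter (fun v => a v < δ)).filter (fun v => v ∈ T), a v ≤ 1 / 8 := by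
      calc ∑ v ∈ (univ.filter (fun v => a v < δ)).filter (fun v => v ∈ T), a v
          ≤ ∑ v ∈ (univ.filter (fun v => a v < δ)).filter (fun v => v ∈ T), δ := by
            apply Finset.sum_le_sum
            intro v hv
            simp only [Finset.mem_filter, Finset.mem_univ, true_and] at hv
            exact hv.1.le
        _ = (((univ.filter (fun v => a v < δ)).filter (fun v => v ∈ T)).card : ℝ) * δ := by
            rw [Finset.sum_const, nsmul_eq_mul]
        _ ≤ (r : ℝ) * δ := by
            apply mul_le_mul_of_nonneg_right _ hδ0.le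
            have h3 : ((univ.filter (fun v => a v < δ)).filter (fun v => v ∈ T)).card ≤ T.card := by
              apply Finset.card_le_card
              intro v hv
              simp only [Finset.mem_filter] at hv
              exact hv.2
            exact_mod_cast h3.trans hTc
        _ = 1 / 8 := hδr
    have h4 : ∑ v ∈ (univ.filter (fun v => a v < δ)).filter (fun v => ¬ v ∈ T), a v ≤
        ∑ v ∈ univ.filter (fun v => ¬ v ∈ T), a v := by
      apply Finset.sum_le_sum_of_subset_of_nonneg
      · intro v hv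
        simp only [Finset.mem_filter, Finset.mem_univ, true_and] at hv ⊢
        exact hv.2
      · intro v _ _
        exact ha v
    have h5 : ∑ v ∈ univ.filter (fun v => v ∈ T), a v +
        ∑ v ∈ univ.filter (fun v => ¬ v ∈ T), a v = 1 := by
      rw [Finset.sum_filter_add_sum_filter_not, hs]
    have h6 : univ.filter (fun v => v ∈ T) = T := by
      ext v; simp
    rw [h6] at h5
    rw [h1]
    linarith
  obtain ⟨b, hb⟩ : ∃ b : V → ℝ, b = fun v => (if a v < δ then 1024 else 1) * a v := ⟨_, rfl⟩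
  have hb0 : ∀ v, 0 ≤ b v := by
    intro v
    rw [hb]
    have := ha v
    simp only
    split_ifs <;> positivity
  have hbs : ∑ v, b v ≤ 142 := by
    have h1 : ∑ v, b v = ∑ v, a v + 1023 * ∑ v ∈ univ.filter (fun v => a v < δ), a v := by
      rw [Finset.mul_sum, Finset.sum_filter, ← Finset.sum_add_distrib, hb]
      apply Finset.sum_congr rfl
      intro v _
      simp only
      split_ifs <;> ring
    rw [h1, hs]
    linarith
  have hprod : ∀ F ∈ L, (512 : ℝ) ^ r * ∏ v ∈ F, a v ≤ ∏ v ∈ F, b v := by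
    intro F hFL
    have hcard := hL F hFL
    have h1 : ∏ v ∈ F, b v = (1024 : ℝ) ^ (F.filter (fun v => a v < δ)).card * ∏ v ∈ F, a v := by
      rw [hb, Finset.prod_mul_distrib, Finset.prod_ite]
      simp
    have h2 : (F.filter (fun v => a v < δ)).card + (F.filter (fun v => ¬ a v < δ)).card = r := by
      rw [← hcard]
      exact Finset.card_filter_add_card_filter_not _
    have h3 : ((F.filter (fun v => ¬ a v < δ)).card : ℝ) * δ < 1 / 80 := by
      calc ((F.filter (fun v => ¬ a v < δ)).card : ℝ) * δ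
          = ∑ v ∈ F.filter (fun v => ¬ a v < δ), δ := by
            rw [Finset.sum_const, nsmul_eq_mul]
        _ ≤ ∑ v ∈ F.filter (fun v => ¬ a v < δ), a v := by
            apply Finset.sum_le_sum
            intro v hv
            simp only [Finset.mem_filter, not_lt] at hv
            exact hv.2
        _ ≤ ∑ v ∈ F, a v := by
            apply Finset.sum_le_sum_of_subset_of_nonneg (Finset.filter_subset _ _)
            intro v _ _
            exact ha v
        _ < 1 / 80 := hF F hFL
    have h4 : 10 * (F.filter (fun v => ¬ a v < δ)).card < r := by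
      have h5 : 10 * ((F.filter (fun v => ¬ a v < δ)).card : ℝ) < (r : ℝ) := by
        have h7 := mul_lt_mul_of_pos_right h3 (show (0 : ℝ) < 80 * r by positivity)
        have h6 : ((F.filter (fun v => ¬ a v < δ)).card : ℝ) * δ * (80 * r) = 10 *
            ((F.filter (fun v => ¬ a v < δ)).card : ℝ) := by
          have h10 : ((F.filter (fun v => ¬ a v < δ)).card : ℝ) * δ * (80 * r) =
            ((F.filter (fun v => ¬ a v < δ)).card : ℝ) * 80 * ((r : ℝ) * δ) := by ring
          rw [h10, hδr]
          ring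
        rw [h6] at h7
        linarith
      exact_mod_cast h5
    have h8 : 9 * r ≤ 10 * (F.filter (fun v => a v < δ)).card := by omega
    have h9 : (512 : ℝ) ^ r ≤ (1024 : ℝ) ^ (F.filter (fun v => a v < δ)).card := by
      have e1 : (512 : ℝ) ^ r = (2 : ℝ) ^ (9 * r) := by
        rw [pow_mul]; norm_num
      have e2 : (1024 : ℝ) ^ (F.filter (fun v => a v < δ)).card =
          (2 : ℝ) ^ (10 * (F.filter (fun v => a v < δ)).card) := by
        rw [pow_mul]; norm_num
      rw [e1, e2]
      exact pow_le_pow_right₀ (by norm_num) h8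
    rw [h1]
    apply mul_le_mul_of_nonneg_right h9
    exact Finset.prod_nonneg (fun v _ => ha v)
  have hlagb : (r.factorial : ℝ) * lag L b ≤ 142 ^ r := by
    rw [fact_lag L hL b]
    calc ∑ g ∈ (univ : Finset (Fin r → V)).filter (fun g => univ.image g ∈ L), ∏ i, b (g i)
        ≤ ∑ g : Fin r → V, ∏ i, b (g i) := by
          apply Finset.sum_le_sum_of_subset_of_nonneg (Finset.filter_subset _ _)
          intro g _ _
          exact Finset.prod_nonneg (fun i _ => hb0 _)
      _ = (∑ v, b v) ^ r := (Fintype.sum_pow b r).symm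
      _ ≤ 142 ^ r := pow_le_pow_left₀ (Finset.sum_nonneg (fun v _ => hb0 v)) hbs r
  have hlag : (512 : ℝ) ^ r * lag L a ≤ lag L b := by
    unfold lag
    rw [Finset.mul_sum]
    exact Finset.sum_le_sum hprod
  have hfin : (512 : ℝ) ^ r * ((r.factorial : ℝ) * lag L a) ≤ 142 ^ r := by
    calc (512 : ℝ) ^ r * ((r.factorial : ℝ) * lag L a)
        = (r.factorial : ℝ) * ((512 : ℝ) ^ r * lag L a) := by ring
      _ ≤ (r.factorial : ℝ) * lag L b :=
          mul_le_mul_of_nonneg_left hlag (Nat.cast_nonneg _)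
      _ ≤ 142 ^ r := hlagb
  have h512 : (0 : ℝ) < (512 : ℝ) ^ r := by positivity
  have hlast : (142 : ℝ) ^ r ≤ (512 : ℝ) ^ r * (1 / 3) ^ r := by
    rw [← mul_pow]
    exact pow_le_pow_left₀ (by norm_num) (by norm_num) r
  exact le_of_mul_le_mul_left (hfin.trans hlast) h512

end Pool.Agent.helper163_WO

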