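import Pool.Agent.helper163_WO.Defs
import Pool.Agent.helper163_WO.StarIneq
import Pool.Agent.helper163_WO.TypeTwo
import Pool.Agent.helper163_WO.Numeric

set_option autoImplicit false

namespace Pool.Agent.helper163_WO

open Finset

theorem lag_nonneg {V : Type} (L : Finset (Finset V)) (a : V → ℝ) (ha : ∀ v, 0 ≤ a v) :
    0 ≤ lag L a :=
  Finset.sum_nonneg fun _ _ => Finset.prod_nonneg fun v _ => ha v

theorem lag_smul {V : Type} {r : ℕ} (L : Finset (Finset V)) (hL : ∀ e ∈ L, e.card = r)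
    (a : V → ℝ) (c : ℝ) : lag L (fun v => c * a v) = c ^ r * lag L a := by
  rw [lag, lag, Finset.mul_sum]
  refine Finset.sum_congr rfl fun F hF => ?_
  rw [Finset.prod_mul_distrib, Finset.prod_const, hL F hF]

theorem lemmaB_norm {r : ℕ} (hr : 1 ≤ r)
    (hnum : (r.factorial : ℝ) / (r : ℝ) ^ r * Real.exp ((r : ℝ) * (1 - 1 / 160)) +
      (1 / 3) ^ r ≤ 1 / (10 * ((r : ℝ) + 1) * (r : ℝ) ^ 2))
    {V : Type} [Fintype V] [DecidableEq V]
    (L : Finset (Finset V)) (b : V → ℝ) (hb : ∀ v, 0 ≤ b v) (hs : ∑ v, b v = 1)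
    (hL : ∀ e ∈ L, e.card = r) (hq : ¬ HasPriv L (r + 1)) :
    (r.factorial : ℝ) * lag L b ≤ 1 / (10 * ((r : ℝ) + 1) * (r : ℝ) ^ 2) := by
  classical
  obtain ⟨T, hT1, hT2⟩ := star_ineq hr L b hb hL hq
  have hr0 : (0 : ℝ) < r := by exact_mod_cast hr
  set p : Finset V → Prop := fun F => (∑ v ∈ F, b v) / 2 + ∑ v ∈ T F, b v ≤ 1 - 1 / 160 with hp
  have hsplit : lag L b = lag (L.filter p) b + lag (L.filter fun F => ¬ p F) b := by
    unfold lag
    rw [Finset.sum_filter_add_sum_filter_not]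
  have hL1 : lag (L.filter p) b ≤ 1 / (r : ℝ) ^ r * Real.exp ((r : ℝ) * (1 - 1 / 160)) := by
    have h1 : (r : ℝ) ^ r * (lag (L.filter p) b * Real.exp (-((r : ℝ) * (1 - 1 / 160)))) ≤ 1 := by
      refine le_trans ?_ hT2
      refine mul_le_mul_of_nonneg_left ?_ (by positivity)
      rw [lag, Finset.sum_mul]
      refine le_trans (Finset.sum_le_sum (g := fun F => (∏ v ∈ F, b v) *
        Real.exp (-((r : ℝ) * ((∑ v ∈ F, b v) / 2 + ∑ v ∈ T F, b v)))) ?_) ?_
      · intro F hF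
        refine mul_le_mul_of_nonneg_left ?_ (Finset.prod_nonneg fun v _ => hb v)
        apply Real.exp_le_exp.2
        have h2 : (∑ v ∈ F, b v) / 2 + ∑ v ∈ T F, b v ≤ 1 - 1 / 160 := (mem_filter.1 hF).2
        have := mul_le_mul_of_nonneg_left h2 hr0.le
        linarith
      · refine Finset.sum_le_sum_of_subset_of_nonneg (filter_subset _ _) ?_
        intro F _ _
        exact mul_nonneg (Finset.prod_nonneg fun v _ => hb v) (Real.exp_pos _).le
    have h3 : lag (L.filter p) b = (lag (L.filter p) b *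
        Real.exp (-((r : ℝ) * (1 - 1 / 160)))) * Real.exp ((r : ℝ) * (1 - 1 / 160)) := by
      rw [mul_assoc, ← Real.exp_add]
      simp
    rw [h3]
    refine mul_le_mul_of_nonneg_right ?_ (Real.exp_pos _).le
    rw [le_div_iff₀ (by positivity)]
    linarith
  have hL2 : (r.factorial : ℝ) * lag (L.filter fun F => ¬ p F) b ≤ (1 / 3) ^ r := by
    rcases (L.filter fun F => ¬ p F).eq_empty_or_nonempty with h0 | ⟨F₀, hF₀⟩
    · rw [h0]
      simp [lag]
    · have hdis : ∀ F ∈ L, ∑ v ∈ F, b v + ∑ v ∈ T F, b v ≤ 1 := by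
        intro F hF
        rw [← Finset.sum_union (hT1 F hF).1, ← hs]
        exact Finset.sum_le_sum_of_subset_of_nonneg (subset_univ _) fun v _ _ => hb v
      have key : ∀ F ∈ L.filter (fun F => ¬ p F), ∑ v ∈ F, b v < 1 / 80 := by
        intro F hF
        obtain ⟨h1, h2⟩ := mem_filter.1 hF
        have h3 := hdis F h1
        simp only [hp, not_le] at h2
        linarith
      have hF₀' := mem_filter.1 hF₀
      refine type2 (L.filter fun F => ¬ p F) b hb hs (fun e he => hL e (mem_filter.1 he).1)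
        (T F₀) (hT1 F₀ hF₀'.1).2 ?_ key
      have h2 := hF₀'.2
      have h4 := key F₀ hF₀
      simp only [hp, not_le] at h2
      linarith
  rw [hsplit, mul_add]
  refine le_trans (add_le_add ?_ hL2) hnum
  calc (r.factorial : ℝ) * lag (L.filter p) b
      ≤ (r.factorial : ℝ) * (1 / (r : ℝ) ^ r * Real.exp ((r : ℝ) * (1 - 1 / 160))) :=
        mul_le_mul_of_nonneg_left hL1 (by positivity)
    _ = _ := by ring

theorem lemmaB : ∃ r0 : ℕ, ∀ r : ℕ, r0 ≤ r → ∀ (V : Type) [Fintype V] [DecidableEq V]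
    (L : Finset (Finset V)) (a : V → ℝ), (∀ v, 0 ≤ a v) → (∀ e ∈ L, e.card = r) →
    ¬ HasPriv L (r + 1) →
    (r.factorial : ℝ) * lag L a ≤ (∑ v, a v) ^ r / (10 * ((r : ℝ) + 1) * (r : ℝ) ^ 2) := by
  obtain ⟨r1, hr1⟩ := numeric
  refine ⟨max r1 1, ?_⟩
  intro r hr V _ _ L a ha hL hq
  have h1 : 1 ≤ r := le_trans (le_max_right _ _) hr
  have h2 : r1 ≤ r := le_trans (le_max_left _ _) hr
  have hW0 : 0 ≤ ∑ v, a v := Finset.sum_nonneg fun v _ => ha v
  rcases hW0.eq_or_lt with hW | hW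
  · have h3 : ∀ v, a v = 0 := by
      intro v
      exact (Finset.sum_eq_zero_iff_of_nonneg fun v _ => ha v).1 hW.symm v (mem_univ v)
    have h4 : lag L a = 0 := by
      refine Finset.sum_eq_zero fun F hF => ?_
      have : F.Nonempty := by
        rw [← Finset.card_pos, hL F hF]; omega
      obtain ⟨v, hv⟩ := this
      exact Finset.prod_eq_zero hv (h3 v)
    rw [h4, mul_zero]
    positivity
  · set W := ∑ v, a v with hWdef
    have h5 := lemmaB_norm h1 (hr1 r h2) L (fun v => W⁻¹ * a v)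
      (fun v => mul_nonneg (inv_nonneg.2 hW0) (ha v))
      (by rw [← Finset.mul_sum, ← hWdef, inv_mul_cancel₀ hW.ne']) hL hq
    rw [lag_smul L hL] at h5
    have h6 : (r.factorial : ℝ) * lag L a =
        W ^ r * ((r.factorial : ℝ) * (W⁻¹ ^ r * lag L a)) := by
      rw [inv_pow]
      field_simp
    rw [h6, div_eq_mul_one_div]
    exact mul_le_mul_of_nonneg_left h5 (by positivity)

end Pool.Agent.helper163_WO
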