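import Pool.Agent.helper163_WO.Defs

set_option autoImplicit false

namespace Pool.Agent.helper163_WO

open Finset

/- TARGET. Plain proof. Among all pairs `(X, w')` with `w' ≥ 0`, `w' = 0` off `X`, `∑ w' = 1`, `c < lag (G.filter (· ⊆ X)) w'`
(e.g. `(univ, w)`) take one with `|X|` minimal. `X` is nonempty (otherwise `∑ w' = 0`). Suppose `x ≠ y` in `X` are in no common edge of
`G' = G.filter (· ⊆ X)`. With `D_x = ∑ e ∈ G', x ∈ e, ∏ v ∈ e \ x, w' v` and similarly `D_y` (these do not involve `w' x`, `w' y`), `R = ∑` over the
other edges, `lag G' w' = w' x * D_x + w' y * D_y + R`. Say `D_y ≤ D_x`. Let `w''` = `w'` with `w'' x = w' x + w' y`, `w'' y = 0`. Then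
`lag G' w'' ≥ lag G' w' > c` and, since `w'' y = 0`, `lag (G.filter (· ⊆ X.erase y)) w'' = lag G' w''`: smaller `|X|`, contradiction. -/
theorem reduce {k : ℕ} (hk : 2 ≤ k) {V : Type} [Fintype V] [DecidableEq V]
    (G : Finset (Finset V)) (hG : ∀ e ∈ G, e.card = k) (w : V → ℝ) (hw : ∀ v, 0 ≤ w v)
    (hw1 : ∑ v, w v = 1) (c : ℝ) (hc : 0 ≤ c) (hf : c < lag G w) :
    ∃ (X : Finset V) (w' : V → ℝ), X.Nonempty ∧ (∀ v, 0 ≤ w' v) ∧ (∀ v, v ∉ X → w' v = 0) ∧
      ∑ v, w' v = 1 ∧ c < lag (G.filter (fun e => e ⊆ X)) w' ∧
      ∀ x ∈ X, ∀ y ∈ X, x ≠ y → ∃ e ∈ G.filter (fun e => e ⊆ X), x ∈ e ∧ y ∈ e := by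
  have key : ∀ n : ℕ, ∀ (X : Finset V) (w' : V → ℝ), X.card = n → (∀ v, 0 ≤ w' v) →
      (∀ v, v ∉ X → w' v = 0) → ∑ v, w' v = 1 → c < lag (G.filter (fun e => e ⊆ X)) w' →
      ∃ (X : Finset V) (w' : V → ℝ), X.Nonempty ∧ (∀ v, 0 ≤ w' v) ∧ (∀ v, v ∉ X → w' v = 0) ∧
      ∑ v, w' v = 1 ∧ c < lag (G.filter (fun e => e ⊆ X)) w' ∧
      ∀ x ∈ X, ∀ y ∈ X, x ≠ y → ∃ e ∈ G.filter (fun e => e ⊆ X), x ∈ e ∧ y ∈ e := by
    intro n
    induction n using Nat.strong_induction_on with
    | _ n ih =>
      intro X w' hX h0 hoff hsum hlt
      by_cases hcov : ∀ x ∈ X, ∀ y ∈ X, x ≠ y →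
          ∃ e ∈ G.filter (fun e => e ⊆ X), x ∈ e ∧ y ∈ e
      · refine ⟨X, w', ?_, h0, hoff, hsum, hlt, hcov⟩
        by_contra hne
        rw [Finset.not_nonempty_iff_eq_empty] at hne
        have h1 : ∑ v, w' v = 0 := Finset.sum_eq_zero fun v _ => hoff v (by simp [hne])
        linarith
      · push Not at hcov
        obtain ⟨x, hx, y, hy, hxy, hno⟩ := hcov
        set G' := G.filter (fun e => e ⊆ X) with hG'
        let D : V → ℝ := fun z => ∑ e ∈ G', if z ∈ e then ∏ v ∈ e.erase z, w' v else 0
        have step : ∀ x y, x ∈ X → y ∈ X → x ≠ y → (∀ e ∈ G', x ∈ e → y ∉ e) → D y ≤ D x →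
            ∃ (X : Finset V) (w' : V → ℝ), X.Nonempty ∧ (∀ v, 0 ≤ w' v) ∧
            (∀ v, v ∉ X → w' v = 0) ∧
            ∑ v, w' v = 1 ∧ c < lag (G.filter (fun e => e ⊆ X)) w' ∧
            ∀ x ∈ X, ∀ y ∈ X, x ≠ y → ∃ e ∈ G.filter (fun e => e ⊆ X), x ∈ e ∧ y ∈ e := by
          intro x y hx hy hxy hno hD
          let w2 : V → ℝ := fun v =>
            w' v + (if v = x then w' y else 0) - (if v = y then w' y else 0)
          have e1 : w2 y = 0 := by simp [w2, hxy.symm]
          have e2 : w2 x = w' x + w' y := by simp [w2, hxy]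
          have e3 : ∀ v, v ≠ x → v ≠ y → w2 v = w' v := by
            intro v h1 h2
            simp [w2, h1, h2]
          have hterm : ∀ e ∈ G', ∏ v ∈ e, w2 v = ∏ v ∈ e, w' v +
              (w' y * (if x ∈ e then ∏ v ∈ e.erase x, w' v else 0) -
                w' y * (if y ∈ e then ∏ v ∈ e.erase y, w' v else 0)) := by
            intro e he
            by_cases h1 : x ∈ e
            · have h2 : y ∉ e := hno e he h1
              rw [if_pos h1, if_neg h2, ← Finset.mul_prod_erase e w2 h1,
                ← Finset.mul_prod_erase e w' h1, e2]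
              have h3 : ∏ v ∈ e.erase x, w2 v = ∏ v ∈ e.erase x, w' v := by
                refine Finset.prod_congr rfl fun v hv => e3 v (Finset.ne_of_mem_erase hv) ?_
                rintro rfl
                exact h2 (Finset.mem_of_mem_erase hv)
              rw [h3]
              ring
            · by_cases h2 : y ∈ e
              · rw [if_neg h1, if_pos h2, Finset.prod_eq_zero h2 e1,
                  ← Finset.mul_prod_erase e w' h2]
                ring
              · rw [if_neg h1, if_neg h2]
                have h3 : ∏ v ∈ e, w2 v = ∏ v ∈ e, w' v := by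
                  refine Finset.prod_congr rfl fun v hv => e3 v ?_ ?_
                  · rintro rfl; exact h1 hv
                  · rintro rfl; exact h2 hv
                rw [h3]
                ring
          have hlag : lag G' w2 = lag G' w' + w' y * (D x - D y) := by
            unfold lag
            rw [Finset.sum_congr rfl hterm, Finset.sum_add_distrib, Finset.sum_sub_distrib,
              ← Finset.mul_sum, ← Finset.mul_sum]
            ring
          have hlag2 : lag (G.filter (fun e => e ⊆ X.erase y)) w2 = lag G' w2 := by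
            unfold lag
            refine Finset.sum_subset ?_ ?_
            · intro e he
              rw [Finset.mem_filter] at he
              rw [hG', Finset.mem_filter]
              exact ⟨he.1, he.2.trans (Finset.erase_subset _ _)⟩
            · intro e he he'
              have h1 : y ∈ e := by
                by_contra h2
                apply he'
                rw [hG', Finset.mem_filter] at he
                rw [Finset.mem_filter]
                exact ⟨he.1, Finset.subset_erase.2 ⟨he.2, h2⟩⟩
              exact Finset.prod_eq_zero h1 e1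
          refine ih (X.erase y).card ?_ (X.erase y) w2 rfl ?_ ?_ ?_ ?_
          · rw [← hX]
            exact Finset.card_erase_lt_of_mem hy
          · intro v
            by_cases h1 : v = x
            · rw [h1, e2]
              exact add_nonneg (h0 _) (h0 _)
            · by_cases h2 : v = y
              · rw [h2, e1]
              · rw [e3 v h1 h2]
                exact h0 v
          · intro v hv
            by_cases h2 : v = y
            · rw [h2, e1]
            · have h3 : v ∉ X := fun h4 => hv (Finset.mem_erase.2 ⟨h2, h4⟩)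
              have h4 : v ≠ x := by
                rintro rfl
                exact h3 hx
              rw [e3 v h4 h2]
              exact hoff v h3
          · simp only [w2]
            rw [Finset.sum_sub_distrib, Finset.sum_add_distrib]
            simp [hsum]
          · rw [hlag2, hlag]
            have h1 : 0 ≤ w' y * (D x - D y) := mul_nonneg (h0 y) (sub_nonneg.2 hD)
            linarith
        rcases le_total (D y) (D x) with h | h
        · exact step x y hx hy hxy (fun e he h1 h2 => hno e he h1 h2) h
        · exact step y x hy hx hxy.symm (fun e he h1 h2 => hno e he h2 h1) h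
  refine key _ Finset.univ w rfl hw (fun v hv => absurd (Finset.mem_univ v) hv) hw1 ?_
  have : G.filter (fun e => e ⊆ Finset.univ) = G := by
    refine Finset.filter_true_of_mem fun e _ => Finset.subset_univ e
  rw [this]
  exact hf

end Pool.Agent.helper163_WO
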