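import Pool.Agent.helper163_WO.Defs
import Pool.Agent.helper163_WO.LemB
import Pool.Agent.helper163_WO.Reduce
import Pool.Agent.helper163_WO.Cover

set_option autoImplicit false

namespace Pool.Agent.helper163_WO

open Finset

/-- removing a vertex -/
theorem lag_remove {V : Type} [DecidableEq V] (G : Finset (Finset V)) (S : Finset V) (x : V)
    (hx : x ∈ S) (w : V → ℝ) :
    lag (G.filter (fun e => e ⊆ S)) w = w x * lag (link G S x) w +
      lag (G.filter (fun e => e ⊆ S.erase x)) w := by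
  classical
  have h1 : lag (G.filter (fun e => e ⊆ S)) w =
      lag ((G.filter (fun e => e ⊆ S)).filter (fun e => x ∈ e)) w +
      lag ((G.filter (fun e => e ⊆ S)).filter (fun e => ¬ x ∈ e)) w := by
    unfold lag
    rw [Finset.sum_filter_add_sum_filter_not]
  rw [h1]
  congr 1
  · have h2 : (G.filter (fun e => e ⊆ S)).filter (fun e => x ∈ e) =
        G.filter (fun e => x ∈ e ∧ e ⊆ S) := by
      ext e; simp only [mem_filter]; tauto
    rw [h2, link, lag, lag, Finset.sum_image, Finset.mul_sum]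
    · refine Finset.sum_congr rfl fun e he => ?_
      rw [Finset.mul_prod_erase]
      exact (mem_filter.1 he).2.1
    · intro e he e' he' h
      have h3 := (mem_filter.1 (Finset.mem_coe.1 he)).2.1
      have h4 := (mem_filter.1 (Finset.mem_coe.1 he')).2.1
      simp only at h
      rw [← Finset.insert_erase h3, h, Finset.insert_erase h4]
  · congr 1
    ext e
    simp only [mem_filter, Finset.subset_erase]
    tauto

theorem link_card {V : Type} [DecidableEq V] {k : ℕ} (G : Finset (Finset V))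
    (hG : ∀ e ∈ G, e.card = k) (S : Finset V) (x : V) :
    ∀ F ∈ link G S x, F.card = k - 1 ∧ F ⊆ S.erase x := by
  intro F hF
  obtain ⟨e, he, rfl⟩ := Finset.mem_image.1 hF
  obtain ⟨h1, h2, h3⟩ := mem_filter.1 he
  refine ⟨by rw [card_erase_of_mem h2, hG e h1], Finset.erase_subset_erase x h3⟩

theorem lag_mono {V : Type} {L L' : Finset (Finset V)} (h : L ⊆ L') (a : V → ℝ)
    (ha : ∀ v, 0 ≤ a v) : lag L a ≤ lag L' a :=
  Finset.sum_le_sum_of_subset_of_nonneg h fun _ _ _ => Finset.prod_nonneg fun v _ => ha v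

/-- Lemma B' -/
theorem lemmaB' {r : ℕ} (hr : 2 ≤ r) {V : Type} [Fintype V] [DecidableEq V]
    (hB : ∀ (L : Finset (Finset V)) (a : V → ℝ), (∀ v, 0 ≤ a v) → (∀ e ∈ L, e.card = r) →
      ¬ HasPriv L (r + 1) →
      (r.factorial : ℝ) * lag L a ≤ (∑ v, a v) ^ r / (10 * ((r : ℝ) + 1) * (r : ℝ) ^ 2))
    (L : Finset (Finset V)) (hL : ∀ e ∈ L, e.card = r) (hq : ¬ HasPriv L (r + 1))
    (U : Finset V) (hU : ∀ e ∈ L, e ⊆ U) (a : V → ℝ) (ha : ∀ v, 0 ≤ a v) :
    (r.factorial : ℝ) * lag L a ≤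
      1 / (10 * ((r : ℝ) + 1)) * ((∑ v ∈ U, a v) ^ (r - 2) * ∑ v ∈ U, a v ^ 2) := by
  classical
  set W := L.biUnion id with hW
  have hWU : W ⊆ U := by
    intro v hv
    obtain ⟨e, he, hve⟩ := mem_biUnion.1 hv
    exact hU e he hve
  have h1 := hB L (fun v => if v ∈ W then a v else 0) (by
    intro v
    split_ifs
    · exact ha v
    · exact le_rfl) hL hq
  have h2 : lag L (fun v => if v ∈ W then a v else 0) = lag L a := by
    unfold lag
    refine Finset.sum_congr rfl fun e he => Finset.prod_congr rfl fun v hv => ?_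
    have hvW : v ∈ W := mem_biUnion.2 ⟨e, he, hv⟩
    simp [hvW]
  have h3 : ∑ v, (if v ∈ W then a v else 0) = ∑ v ∈ W, a v := by
    rw [← Finset.sum_filter]
    congr 1
    ext v; simp
  rw [h2, h3] at h1
  refine h1.trans ?_
  have h4 : (∑ v ∈ W, a v) ^ 2 ≤ (r : ℝ) ^ 2 * ∑ v ∈ U, a v ^ 2 := by
    calc (∑ v ∈ W, a v) ^ 2 ≤ (W.card : ℝ) * ∑ v ∈ W, a v ^ 2 := sq_sum_le_card_mul_sum_sq
      _ ≤ (r : ℝ) ^ 2 * ∑ v ∈ U, a v ^ 2 := by
        have h5 : (W.card : ℝ) ≤ (r : ℝ) ^ 2 := by exact_mod_cast small_cover L hL hq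
        have h6 : ∑ v ∈ W, a v ^ 2 ≤ ∑ v ∈ U, a v ^ 2 :=
          Finset.sum_le_sum_of_subset_of_nonneg hWU fun v _ _ => sq_nonneg _
        have h7 : 0 ≤ ∑ v ∈ W, a v ^ 2 := Finset.sum_nonneg fun v _ => sq_nonneg _
        exact mul_le_mul h5 h6 h7 (by positivity)
  have h8 : ∑ v ∈ W, a v ≤ ∑ v ∈ U, a v :=
    Finset.sum_le_sum_of_subset_of_nonneg hWU fun v _ _ => ha v
  have h9 : 0 ≤ ∑ v ∈ W, a v := Finset.sum_nonneg fun v _ => ha v
  have h10 : (∑ v ∈ W, a v) ^ r ≤ (∑ v ∈ U, a v) ^ (r - 2) * ((r : ℝ) ^ 2 * ∑ v ∈ U, a v ^ 2) := by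
    have : r = (r - 2) + 2 := by omega
    conv_lhs => rw [this, pow_add]
    exact mul_le_mul (pow_le_pow_left₀ h9 h8 _) h4 (sq_nonneg _) (pow_nonneg (h9.trans h8) _)
  have hr0 : (0 : ℝ) < r := by
    have : 0 < r := by omega
    exact_mod_cast this
  rw [div_le_iff₀ (by positivity)]
  refine h10.trans (le_of_eq ?_)
  field_simp

theorem star_max {r : ℕ} (ω : ℝ) (h0 : 0 ≤ ω) (h1 : ω ≤ 1) (hr : 1 ≤ r) :
    ω * (1 - ω) ^ r ≤ al (r + 1) / ((r : ℝ) + 1) := by
  have hr0 : (0 : ℝ) < r := by exact_mod_cast hr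
  have hal : al (r + 1) = ((r : ℝ) / (r + 1)) ^ r := by
    rw [al]
    congr 1
    push_cast
    field_simp
    ring
  rw [hal]
  rcases h1.eq_or_lt with h1 | h1
  · rw [h1, sub_self, zero_pow (by omega), mul_zero]
    positivity
  · set A := 1 - ω with hA
    have hA0 : 0 < A := by linarith
    -- Bernoulli with s = r / ((r+1) A)
    have h2 := one_add_mul_le_pow (a := (r : ℝ) / ((r + 1) * A) - 1)
      (by
        have : 0 ≤ (r : ℝ) / ((r + 1) * A) := by positivity
        linarith) (r + 1)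
    have h3 : (1 + ((r : ℝ) / ((r + 1) * A) - 1)) = (r : ℝ) / ((r + 1) * A) := by ring
    rw [h3] at h2
    have h4 : (1 + ((r + 1 : ℕ) : ℝ) * ((r : ℝ) / ((r + 1) * A) - 1)) = r * (1 - A) / A := by
      push_cast
      field_simp
      ring
    rw [h4] at h2
    have h5 : (1 - A) = ω := by rw [hA]; ring
    rw [h5] at h2
    have h6 : ((r : ℝ) / ((r + 1) * A)) ^ (r + 1) = ((r : ℝ) / (r + 1)) ^ (r + 1) / A ^ (r + 1) := by
      rw [← div_pow]
      congr 1
      field_simp
    rw [h6, div_le_div_iff₀ hA0 (by positivity)] at h2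
    have h7 : ((r : ℝ) / (r + 1)) ^ (r + 1) = ((r : ℝ) / (r + 1)) ^ r * (r / (r + 1)) := pow_succ _ _
    rw [h7, pow_succ] at h2
    have h8 : (r : ℝ) * A * (ω * A ^ r) ≤ (r : ℝ) * A * (((r : ℝ) / (r + 1)) ^ r / (r + 1)) := by
      calc (r : ℝ) * A * (ω * A ^ r) = r * ω * (A ^ r * A) := by ring
        _ ≤ ((r : ℝ) / (r + 1)) ^ r * (r / (r + 1)) * A := h2
        _ = _ := by ring
    exact le_of_mul_le_mul_left h8 (by positivity)

theorem al_lower {r : ℕ} (hr : 1 ≤ r) : (1 / 3 : ℝ) ≤ al (r + 1) := by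
  have hr0 : (0 : ℝ) < r := by exact_mod_cast hr
  have hal : al (r + 1) = ((r : ℝ) / (r + 1)) ^ r := by
    rw [al]
    congr 1
    push_cast
    field_simp
    ring
  rw [hal]
  have h1 : ((1 : ℝ) + 1 / r) ^ r ≤ Real.exp 1 := by
    calc ((1 : ℝ) + 1 / r) ^ r ≤ (Real.exp (1 / r)) ^ r := by
          apply pow_le_pow_left₀ (by positivity)
          have := Real.add_one_le_exp (1 / (r : ℝ))
          linarith
      _ = Real.exp 1 := by
          rw [← Real.exp_nat_mul]
          congr 1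
          field_simp
  have h2 : ((r : ℝ) / (r + 1)) ^ r = 1 / ((1 : ℝ) + 1 / r) ^ r := by
    rw [← one_div_pow]
    congr 1
    field_simp
  rw [h2]
  have h3 := Real.exp_one_lt_d9
  have h4 : (0 : ℝ) < ((1 : ℝ) + 1 / r) ^ r := by positivity
  rw [div_le_div_iff₀ (by norm_num) h4]
  linarith

theorem lemmaQ : ∃ k0 : ℕ, 3 ≤ k0 ∧ ∀ k : ℕ, k0 ≤ k → ∀ (V : Type) [Fintype V] [DecidableEq V]
    (G : Finset (Finset V)) (w : V → ℝ), (∀ e ∈ G, e.card = k) → (∀ v, 0 ≤ w v) →
    ∑ v, w v = 1 → al k / (k.factorial : ℝ) < lag G w →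
    ∃ X : Finset V, Rich k X (G.filter (fun e => e ⊆ X)) := by
  classical
  obtain ⟨r0, hB0⟩ := lemmaB
  refine ⟨max (r0 + 1) 3, le_max_right _ _, ?_⟩
  intro k hk V _ _ G w hG hw hw1 hf
  obtain ⟨r, rfl⟩ : ∃ r, k = r + 1 := ⟨k - 1, by
    have := (le_max_right _ _).trans hk
    omega⟩
  have hr0 : r0 ≤ r := by
    have := (le_max_left _ _).trans hk
    omega
  have hr2 : 2 ≤ r := by
    have := (le_max_right _ _).trans hk
    omega
  have hB := hB0 r hr0 V
  have hrpos : (0 : ℝ) < r := by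
    have : 0 < r := by omega
    exact_mod_cast this
  have hal3 := al_lower (r := r) (by omega)
  have hc0 : 0 ≤ al (r + 1) / ((r + 1).factorial : ℝ) := by
    have : 0 ≤ al (r + 1) := by linarith
    positivity
  obtain ⟨X, a, hXne, ha, haX, ha1, hfa, hcov⟩ := reduce (by omega) G hG w hw hw1 _ hc0 hf
  refine ⟨X, hXne, fun e he => ⟨hG e (mem_filter.1 he).1, (mem_filter.1 he).2⟩, hcov, ?_⟩
  by_contra hcon
  push Not at hcon
  obtain ⟨ξ, hξ, hbad⟩ := hcon
  set G' := G.filter (fun e => e ⊆ X) with hG'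
  have hG'c : ∀ e ∈ G', e.card = r + 1 := fun e he => hG e (mem_filter.1 he).1
  set U := X.erase ξ with hU
  set A := ∑ v ∈ U, a v with hA
  set Q := ∑ v ∈ U, a v ^ 2 with hQ
  set ε : ℝ := 1 / (10 * ((r : ℝ) + 1)) with hε
  have hA0 : 0 ≤ A := Finset.sum_nonneg fun v _ => ha v
  have hQ0 : 0 ≤ Q := Finset.sum_nonneg fun v _ => sq_nonneg _
  have hωA : a ξ + A = 1 := by
    rw [hA, hU, Finset.add_sum_erase _ _ hξ, ← ha1]
    refine Finset.sum_subset (subset_univ _) fun v _ hv => haX v hv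
  -- removal order
  have hrem : ∀ n : ℕ, ∀ S : Finset V, S.card = n → S ⊆ U →
      (r.factorial : ℝ) * lag (G'.filter (fun e => e ⊆ S)) a ≤
        ε * (A ^ (r - 2) * Q) * ∑ v ∈ S, a v := by
    intro n
    induction n with
    | zero =>
      intro S hS _
      rw [Finset.card_eq_zero] at hS
      subst hS
      have : G'.filter (fun e => e ⊆ ∅) = ∅ := by
        rw [Finset.filter_eq_empty_iff]
        intro e he h
        rw [Finset.subset_empty] at h
        have := hG'c e he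
        rw [h, card_empty] at this
        omega
      rw [this]
      simp [lag]
    | succ n ih =>
      intro S hS hSU
      have hSne : S.Nonempty := by rw [← Finset.card_pos]; omega
      obtain ⟨x, hxS, hx⟩ := hbad S hSU hSne
      have h1 := ih (S.erase x) (by rw [card_erase_of_mem hxS, hS]; rfl)
        ((Finset.erase_subset _ _).trans hSU)
      have hlc := link_card G' hG'c S x
      have h2 := lemmaB' hr2 hB (link G' S x) (fun e he => (hlc e he).1) hx U
        (fun e he => (hlc e he).2.trans ((Finset.erase_subset _ _).trans hSU)) a ha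
      rw [← hA, ← hQ, ← hε] at h2
      rw [lag_remove G' S x hxS a, ← Finset.add_sum_erase _ _ hxS]
      have h3 := mul_le_mul_of_nonneg_left h2 (ha x)
      nlinarith
  have hmain := hrem U.card U rfl subset_rfl
  rw [← hA] at hmain
  have hlag : lag G' a = a ξ * lag (link G' X ξ) a + lag (G'.filter (fun e => e ⊆ U)) a := by
    have h1 := lag_remove G' X ξ hξ a
    have h2 : G'.filter (fun e => e ⊆ X) = G' := by
      rw [Finset.filter_eq_self]
      intro e he
      exact (mem_filter.1 he).2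
    rw [h2] at h1
    exact h1
  have hlink : (r.factorial : ℝ) * lag (link G' X ξ) a ≤ A ^ r - A ^ (r - 2) * Q := by
    refine le_trans ?_ (elem_bound hr2 U a ha)
    refine mul_le_mul_of_nonneg_left ?_ (by positivity)
    refine lag_mono ?_ a ha
    intro F hF
    obtain ⟨h1, h2⟩ := link_card G' hG'c X ξ F hF
    rw [mem_powersetCard]
    exact ⟨h2, by rw [h1]; rfl⟩
  have htot : (r.factorial : ℝ) * lag G' a ≤
      a ξ * (A ^ r - A ^ (r - 2) * Q) + ε * (A ^ (r - 2) * Q) * A := by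
    rw [hlag, mul_add]
    refine add_le_add ?_ hmain
    have := mul_le_mul_of_nonneg_left hlink (ha ξ)
    calc (r.factorial : ℝ) * (a ξ * lag (link G' X ξ) a)
        = a ξ * ((r.factorial : ℝ) * lag (link G' X ξ) a) := by ring
      _ ≤ _ := this
  have hbig : al (r + 1) / ((r : ℝ) + 1) < (r.factorial : ℝ) * lag G' a := by
    have h1 := mul_lt_mul_of_pos_left hfa (show (0 : ℝ) < (r.factorial : ℝ) by positivity)
    have h2 : (r.factorial : ℝ) * (al (r + 1) / ((r + 1).factorial : ℝ)) =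
        al (r + 1) / ((r : ℝ) + 1) := by
      rw [Nat.factorial_succ]
      push_cast
      have : (r.factorial : ℝ) ≠ 0 := by positivity
      field_simp
    rw [h2] at h1
    exact h1
  have hA1 : A ≤ 1 := by linarith [ha ξ]
  have hω1 : a ξ ≤ 1 := by linarith
  have hAQ : 0 ≤ A ^ (r - 2) * Q := by positivity
  have hεpos : 0 < ε := by rw [hε]; positivity
  by_cases hcase : ε ≤ a ξ
  · have h1 : ε * (A ^ (r - 2) * Q) * A ≤ a ξ * (A ^ (r - 2) * Q) := by
      calc ε * (A ^ (r - 2) * Q) * A ≤ ε * (A ^ (r - 2) * Q) * 1 :=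
            mul_le_mul_of_nonneg_left hA1 (by positivity)
        _ = ε * (A ^ (r - 2) * Q) := by ring
        _ ≤ a ξ * (A ^ (r - 2) * Q) := mul_le_mul_of_nonneg_right hcase hAQ
    have h2 := star_max (r := r) (a ξ) (ha ξ) hω1 (by omega)
    have h3 : 1 - a ξ = A := by linarith
    rw [h3] at h2
    nlinarith
  · push Not at hcase
    have hQA : Q ≤ A ^ 2 := by
      rw [hQ, hA]
      exact Finset.sum_sq_le_sq_sum_of_nonneg fun v _ => ha v
    have hQ1 : Q ≤ 1 := hQA.trans (pow_le_one₀ hA0 hA1)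
    have hAr : A ^ r ≤ 1 := pow_le_one₀ hA0 hA1
    have hAr2 : A ^ (r - 2) ≤ 1 := pow_le_one₀ hA0 hA1
    have hAQ1 : A ^ (r - 2) * Q ≤ 1 := by
      calc A ^ (r - 2) * Q ≤ 1 * 1 := mul_le_mul hAr2 hQ1 hQ0 zero_le_one
        _ = 1 := by ring
    have h1 : a ξ * (A ^ r - A ^ (r - 2) * Q) ≤ a ξ * 1 := by
      refine mul_le_mul_of_nonneg_left ?_ (ha ξ)
      linarith
    have h2 : ε * (A ^ (r - 2) * Q) * A ≤ ε * 1 := by
      calc ε * (A ^ (r - 2) * Q) * A ≤ ε * (A ^ (r - 2) * Q) * 1 :=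
            mul_le_mul_of_nonneg_left hA1 (by positivity)
        _ = ε * (A ^ (r - 2) * Q) := by ring
        _ ≤ ε * 1 := mul_le_mul_of_nonneg_left hAQ1 hεpos.le
    have h3 : 2 * ε ≤ al (r + 1) / ((r : ℝ) + 1) := by
      rw [hε, le_div_iff₀ (by positivity)]
      have : 2 * (1 / (10 * ((r : ℝ) + 1))) * ((r : ℝ) + 1) = 1 / 5 := by
        field_simp
        norm_num
      rw [this]
      linarith
    linarith

end Pool.Agent.helper163_WO
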